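import Pool.Agent.Lib.MP_e1539f_lc.Prob

/-!
# Comparison with a fixed state
-/

namespace Pool.Agent.Lib.MP_e1539f_lc

open Matrix
open scoped ComplexOrder

variable {d : ℕ}

/-- A spectral decomposition of a state, with a largest eigenvalue. -/
structure Spectral (ρ : State d) where
  U : unitaryGroup (Fin d) ℂ
  r : Fin d → ℝ
  top : Fin d
  eq : ρ.1 = sp U r
  nonneg : ∀ i, 0 ≤ r i
  sum_eq : ∑ i, r i = 1
  le_top : ∀ i, r i ≤ r top

theorem exists_spectral [NeZero d] (ρ : State d) : Nonempty (Spectral ρ) := by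
  obtain ⟨i₀, -, hi₀⟩ := Finset.exists_max_image (Finset.univ : Finset (Fin d))
    ρ.2.1.1.eigenvalues ⟨0, Finset.mem_univ _⟩
  have h1 : ρ.1 = sp ρ.2.1.1.eigenvectorUnitary ρ.2.1.1.eigenvalues := ρ.2.1.1.spectral_theorem
  refine ⟨⟨ρ.2.1.1.eigenvectorUnitary, ρ.2.1.1.eigenvalues, i₀, h1, ρ.2.1.eigenvalues_nonneg, ?_,
    fun i => hi₀ i (Finset.mem_univ i)⟩⟩
  have h2 := ρ.rtr_eq_one
  rwa [h1, rtr_sp] at h2

namespace Spectral

variable {ρ : State d} (D : Spectral ρ)

/-- The largest eigenvalue. -/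
noncomputable def lam : ℝ := D.r D.top

/-- The spectral gaps. -/
noncomputable def gap (i : Fin d) : ℝ := D.r D.top - D.r i

theorem gap_nonneg (i : Fin d) : 0 ≤ D.gap i := sub_nonneg.2 (D.le_top i)

theorem gap_top : D.gap D.top = 0 := sub_self _

theorem r_le_one (i : Fin d) : D.r i ≤ 1 := by
  rw [← D.sum_eq]
  exact Finset.single_le_sum (fun j _ => D.nonneg j) (Finset.mem_univ i)

theorem gap_le_one (i : Fin d) : D.gap i ≤ 1 := by
  have h1 := D.r_le_one D.top
  have h2 := D.nonneg i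
  unfold gap
  linarith

theorem lam_sub (s c : ℝ) : sp D.U (fun i => c + s * D.gap i) =
    c • (1 : Mat d) + s • (D.lam • (1 : Mat d) - ρ.1) := by
  rw [D.eq, ← sp_const D.U, ← sp_const D.U, sp_sub, smul_sp, sp_add]
  rfl

/-- The loss of a density matrix is nonnegative. -/
theorem loss_nonneg {W : Mat d} (hW : W.PosSemidef) (hW1 : rtr W = 1) :
    0 ≤ D.lam - rtr (ρ.1 * W) := by
  have h1 : (sp D.U (fun i => 0 + 1 * D.gap i)).PosSemidef :=
    posSemidef_sp D.U fun i => by have := D.gap_nonneg i; simpa using this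
  have h2 := rtr_mul_nonneg h1 hW
  rw [D.lam_sub, zero_smul, zero_add, one_smul, Matrix.sub_mul, rtr_sub, Matrix.smul_mul,
    rtr_smul, Matrix.one_mul, hW1, mul_one] at h2
  exact h2

theorem loss_le_one {W : Mat d} (hW : W.PosSemidef) : D.lam - rtr (ρ.1 * W) ≤ 1 := by
  have h1 := rtr_mul_nonneg ρ.2.1 hW
  have h2 := D.r_le_one D.top
  have h3 : D.lam = D.r D.top := rfl
  linarith

theorem born_le_lam (P : Action d) : born ρ P ≤ D.lam := by
  have := D.loss_nonneg P.posSemidef P.rtr_eq_one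
  rw [born_eq]
  linarith

/-- `∑ log (d + s Δ_i)`. -/
noncomputable def L (s : ℝ) : ℝ := ∑ i, Real.log (d + s * D.gap i)

theorem pos_arg [NeZero d] {s : ℝ} (hs : 0 ≤ s) (i : Fin d) : 0 < (d : ℝ) + s * D.gap i := by
  have hd : (0 : ℝ) < d := by exact_mod_cast Nat.pos_of_ne_zero (NeZero.ne d)
  have := mul_nonneg hs (D.gap_nonneg i)
  linarith

/-- An upper bound for `log det W` which is linear in `W`. -/
theorem ldet_le [NeZero d] {s : ℝ} (hs : 0 ≤ s) {W : Mat d} (hW : W.PosDef) (hW1 : rtr W = 1) :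
    ldet W ≤ s * (D.lam - rtr (ρ.1 * W)) - D.L s := by
  have h1 := key (posDef_sp D.U (D.pos_arg hs)) hW
  rw [ldet_sp D.U (D.pos_arg hs), D.lam_sub, Matrix.add_mul, rtr_add, Matrix.smul_mul, rtr_smul,
    Matrix.one_mul, hW1, Matrix.smul_mul, rtr_smul, Matrix.sub_mul, rtr_sub, Matrix.smul_mul,
    rtr_smul, Matrix.one_mul, hW1] at h1
  unfold L
  linarith

theorem L_sub_le [NeZero d] {s s' : ℝ} (hs' : 0 < s') (h : s' ≤ s) :
    D.L s - D.L s' ≤ d * Real.log (s / s') := by
  have hd : (0 : ℝ) < d := by exact_mod_cast Nat.pos_of_ne_zero (NeZero.ne d)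
  have : (d : ℝ) * Real.log (s / s') = ∑ _i : Fin d, Real.log (s / s') := by simp
  rw [this, L, L, ← Finset.sum_sub_distrib]
  refine Finset.sum_le_sum fun i _ => ?_
  have h1 := D.pos_arg hs'.le i
  have h2 := D.pos_arg (hs'.le.trans h) i
  rw [← Real.log_div h2.ne' h1.ne']
  refine Real.log_le_log (div_pos h2 h1) ?_
  rw [div_le_div_iff₀ h1 hs']
  nlinarith [D.gap_nonneg i]

theorem L_sub_log_le [NeZero d] {s : ℝ} (hs : 0 ≤ s) : D.L s - d * Real.log d ≤ s := by
  have hd : (0 : ℝ) < d := by exact_mod_cast Nat.pos_of_ne_zero (NeZero.ne d)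
  have h0 : (d : ℝ) * Real.log d = ∑ _i : Fin d, Real.log d := by simp
  rw [h0, L, ← Finset.sum_sub_distrib]
  calc ∑ i, (Real.log (d + s * D.gap i) - Real.log d) ≤ ∑ _i : Fin d, s / d := by
        refine Finset.sum_le_sum fun i _ => ?_
        have h1 := D.pos_arg hs i
        rw [← Real.log_div h1.ne' hd.ne']
        refine (Real.log_le_sub_one_of_pos (div_pos h1 hd)).trans ?_
        have : ((d : ℝ) + s * D.gap i) / d - 1 = s * D.gap i / d := by field_simp; ring
        rw [this]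
        gcongr
        exact mul_le_of_le_one_right hs (D.gap_le_one i)
    _ = s := by
        rw [Finset.sum_const, Finset.card_univ, Fintype.card_fin, nsmul_eq_mul]
        field_simp

/-- The eigenvalues of the comparator. -/
noncomputable def uval (s : ℝ) (i : Fin d) : ℝ :=
  1 / (d + s * D.gap i) + if i = D.top then 1 - ∑ j, 1 / (d + s * D.gap j) else 0

theorem sum_inv_le [NeZero d] {s : ℝ} (hs : 0 ≤ s) : ∑ j, 1 / (d + s * D.gap j) ≤ 1 := by
  have hd : (0 : ℝ) < d := by exact_mod_cast Nat.pos_of_ne_zero (NeZero.ne d)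
  calc ∑ j, 1 / (d + s * D.gap j) ≤ ∑ _j : Fin d, 1 / (d : ℝ) := by
        refine Finset.sum_le_sum fun i _ => ?_
        have := mul_nonneg hs (D.gap_nonneg i)
        exact one_div_le_one_div_of_le hd (by linarith)
    _ = 1 := by
        rw [Finset.sum_const, Finset.card_univ, Fintype.card_fin, nsmul_eq_mul]
        field_simp

theorem le_uval [NeZero d] {s : ℝ} (hs : 0 ≤ s) (i : Fin d) :
    1 / (d + s * D.gap i) ≤ D.uval s i := by
  unfold uval
  split
  · have := D.sum_inv_le hs; linarith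
  · linarith

theorem uval_pos [NeZero d] {s : ℝ} (hs : 0 ≤ s) (i : Fin d) : 0 < D.uval s i :=
  lt_of_lt_of_le (one_div_pos.2 (D.pos_arg hs i)) (D.le_uval hs i)

theorem sum_uval (s : ℝ) : ∑ i, D.uval s i = 1 := by
  unfold uval
  rw [Finset.sum_add_distrib, Finset.sum_ite_eq' Finset.univ D.top]
  simp

/-- The comparator. -/
noncomputable def u (s : ℝ) : Mat d := sp D.U (D.uval s)

theorem posDef_u [NeZero d] {s : ℝ} (hs : 0 ≤ s) : (D.u s).PosDef :=
  posDef_sp D.U (D.uval_pos hs)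

theorem rtr_u (s : ℝ) : rtr (D.u s) = 1 := by rw [u, rtr_sp, D.sum_uval]

theorem neg_ldet_u_le [NeZero d] {s : ℝ} (hs : 0 ≤ s) : - ldet (D.u s) ≤ D.L s := by
  rw [u, ldet_sp D.U (D.uval_pos hs), L, ← Finset.sum_neg_distrib]
  refine Finset.sum_le_sum fun i _ => ?_
  rw [← Real.log_inv]
  refine Real.log_le_log (inv_pos.2 (D.uval_pos hs i)) ?_
  rw [inv_le_comm₀ (D.uval_pos hs i) (D.pos_arg hs i), ← one_div]
  exact D.le_uval hs i

/-- The loss of the comparator. -/
theorem loss_u_le [NeZero d] {s : ℝ} (hs : 0 < s) : D.lam - rtr (ρ.1 * D.u s) ≤ d / s := by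
  have h1 : rtr (ρ.1 * D.u s) = ∑ i, D.r i * D.uval s i := by
    conv_lhs => rw [D.eq, u, sp_mul, rtr_sp]
  have h2 : D.lam = ∑ i, D.lam * D.uval s i := by rw [← Finset.mul_sum, D.sum_uval, mul_one]
  rw [h1, h2, ← Finset.sum_sub_distrib]
  calc ∑ i, (D.lam * D.uval s i - D.r i * D.uval s i) ≤ ∑ _i : Fin d, 1 / s := by
        refine Finset.sum_le_sum fun i _ => ?_
        have h3 : D.lam * D.uval s i - D.r i * D.uval s i = D.gap i * D.uval s i := by
          unfold lam gap; ring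
        rw [h3]
        by_cases hi : i = D.top
        · rw [hi, D.gap_top, zero_mul]
          positivity
        · have h4 : D.uval s i = 1 / (d + s * D.gap i) := by simp [uval, hi]
          have h5 := D.pos_arg hs.le i
          rw [h4, mul_one_div, div_le_div_iff₀ h5 hs]
          have hd : (0 : ℝ) ≤ d := by positivity
          nlinarith
    _ = d / s := by
        rw [Finset.sum_const, Finset.card_univ, Fintype.card_fin, nsmul_eq_mul]
        ring

end Spectral

end Pool.Agent.Lib.MP_e1539f_lc
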