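import Pool.Agent.Lib.MP_e1539f_lc.Design

/-!
# The unbiased estimator of the state
-/

namespace Pool.Agent.Lib.MP_e1539f_lc

open Matrix
open scoped ComplexOrder

variable {d : ℕ}

/-- The projector `P` pulled back by `A`. -/
noncomputable def back (A P : Mat d) : Mat d := A⁻¹ * P * (A⁻¹)ᴴ

/-- The estimate of the state after the reward `1` for the projector `P`. -/
noncomputable def est (A P : Mat d) : Mat d :=
  (A⁻¹)ᴴ * ((d : ℝ) • recon ((rtr (back A P))⁻¹ • back A P)) * A⁻¹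

/-- The probability of the `k`-th action. -/
noncomputable def wt (A : Mat d) (k : Idx d) : ℝ := rtr (A * QQ k * Aᴴ) / (8 * d)

theorem isHermitian_back (A : Mat d) {P : Mat d} (hP : P.IsHermitian) :
    (back A P).IsHermitian := by
  exact Matrix.isHermitian_mul_mul_conjTranspose A⁻¹ hP

theorem isHermitian_smul {X : Mat d} (hX : X.IsHermitian) (c : ℝ) : (c • X).IsHermitian := by
  rw [Matrix.IsHermitian, Matrix.conjTranspose_smul, hX.eq]
  simp

theorem isHermitian_est (A : Mat d) {P : Mat d} (hP : P.IsHermitian) :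
    (est A P).IsHermitian :=
  Matrix.isHermitian_conjTranspose_mul_mul A⁻¹
    (isHermitian_smul (isHermitian_recon (isHermitian_smul (isHermitian_back A hP) _)) _)

theorem inv_mul_self {A : Mat d} (hA : IsUnit A) : A⁻¹ * A = 1 :=
  Matrix.nonsing_inv_mul _ ((Matrix.isUnit_iff_isUnit_det _).1 hA)

theorem mul_inv_self {A : Mat d} (hA : IsUnit A) : A * A⁻¹ = 1 :=
  Matrix.mul_nonsing_inv _ ((Matrix.isUnit_iff_isUnit_det _).1 hA)

theorem conj_mul_inv {A : Mat d} (hA : IsUnit A) : Aᴴ * (A⁻¹)ᴴ = 1 := by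
  rw [← Matrix.conjTranspose_mul, inv_mul_self hA, Matrix.conjTranspose_one]

theorem inv_mul_conj {A : Mat d} (hA : IsUnit A) : (A⁻¹)ᴴ * Aᴴ = 1 := by
  rw [← Matrix.conjTranspose_mul, mul_inv_self hA, Matrix.conjTranspose_one]

theorem back_act (A : Mat d) (hA : IsUnit A) (k : Idx d) :
    back A (act A hA k).1 = (rtr (A * QQ k * Aᴴ))⁻¹ • QQ k := by
  rw [back, act_val, Matrix.mul_smul, Matrix.smul_mul]
  congr 1
  calc A⁻¹ * (A * QQ k * Aᴴ) * (A⁻¹)ᴴ = (A⁻¹ * A) * QQ k * (Aᴴ * (A⁻¹)ᴴ) := by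
        simp only [Matrix.mul_assoc]
    _ = QQ k := by rw [inv_mul_self hA, conj_mul_inv hA, Matrix.one_mul, Matrix.mul_one]

theorem est_act (A : Mat d) (hA : IsUnit A) (k : Idx d) :
    est A (act A hA k).1 = (A⁻¹)ᴴ * ((d : ℝ) • ZZ k) * A⁻¹ := by
  rw [est, back_act, rtr_smul, rtr_QQ, smul_smul, ← recon_QQ]
  have hpos := rtr_conj_QQ_pos hA k
  have : ((rtr (A * QQ k * Aᴴ))⁻¹ * 2)⁻¹ * (rtr (A * QQ k * Aᴴ))⁻¹ = (2 : ℝ)⁻¹ := by
    field_simp
  rw [this]

theorem conj_est_act (A : Mat d) (hA : IsUnit A) (k : Idx d) :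
    Aᴴ * est A (act A hA k).1 * A = (d : ℝ) • ZZ k := by
  rw [est_act]
  calc Aᴴ * ((A⁻¹)ᴴ * ((d : ℝ) • ZZ k) * A⁻¹) * A =
      (Aᴴ * (A⁻¹)ᴴ) * ((d : ℝ) • ZZ k) * (A⁻¹ * A) := by simp only [Matrix.mul_assoc]
    _ = _ := by rw [inv_mul_self hA, conj_mul_inv hA, Matrix.one_mul, Matrix.mul_one]

theorem rtr_est_sq (A : Mat d) (hA : IsUnit A) (k : Idx d) :
    rtr ((Aᴴ * est A (act A hA k).1 * A) * (Aᴴ * est A (act A hA k).1 * A)) ≤ 2 * d ^ 2 := by
  rw [conj_est_act, Matrix.smul_mul, Matrix.mul_smul, rtr_smul, rtr_smul]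
  have h1 := rtr_ZZ_sq k
  have h2 : (0 : ℝ) ≤ (d : ℝ) ^ 2 := by positivity
  nlinarith

theorem wt_nonneg {A : Mat d} (hA : IsUnit A) (k : Idx d) : 0 ≤ wt A k :=
  div_nonneg (rtr_conj_QQ_pos hA k).le (by positivity)

theorem sum_wt [NeZero d] {A : Mat d} (h1 : rtr (A * Aᴴ) = 1) : ∑ k : Idx d, wt A k = 1 := by
  have hd : (d : ℝ) ≠ 0 := by exact_mod_cast NeZero.ne d
  have h := sum_rtr_conj_QQ A 1
  simp only [Matrix.one_mul] at h
  simp only [wt]
  rw [← Finset.sum_div, h, h1]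
  field_simp

/-- `p_k` times the probability of the reward `1`. -/
theorem wt_mul_born (ρ : State d) {A : Mat d} (hA : IsUnit A) (k : Idx d) :
    wt A k * born ρ (act A hA k) = rtr (ρ.1 * (A * QQ k * Aᴴ)) / (8 * d) := by
  rw [born_eq, act_val, Matrix.mul_smul, rtr_smul, wt]
  have hpos := rtr_conj_QQ_pos hA k
  field_simp

theorem sum_wt_born [NeZero d] (ρ : State d) {A : Mat d} (hA : IsUnit A) :
    ∑ k : Idx d, wt A k * born ρ (act A hA k) = rtr (ρ.1 * (A * Aᴴ)) := by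
  have hd : (d : ℝ) ≠ 0 := by exact_mod_cast NeZero.ne d
  simp only [wt_mul_born]
  rw [← Finset.sum_div, sum_rtr_conj_QQ]
  field_simp

/-- The estimator is unbiased. -/
theorem sum_est [NeZero d] (ρ : State d) {A : Mat d} (hA : IsUnit A) :
    ∑ k : Idx d, (wt A k * born ρ (act A hA k)) • est A (act A hA k).1 = ρ.1 := by
  have hd : (d : ℝ) ≠ 0 := by exact_mod_cast NeZero.ne d
  set B : Mat d := Aᴴ * ρ.1 * A with hB
  have hBH : B.IsHermitian := Matrix.isHermitian_conjTranspose_mul_mul A ρ.2.1.1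
  have h1 : ∀ k : Idx d, (wt A k * born ρ (act A hA k)) • est A (act A hA k).1 =
      (A⁻¹)ᴴ * ((8 : ℝ)⁻¹ • ((B * QQ k).trace • ZZ k)) * A⁻¹ := by
    intro k
    have h2 : (B * QQ k).trace = (rtr (ρ.1 * (A * QQ k * Aᴴ)) : ℂ) := by
      have h3 : (B * QQ k).trace = (ρ.1 * (A * QQ k * Aᴴ)).trace := by
        rw [hB, Matrix.mul_assoc, Matrix.mul_assoc, Matrix.trace_mul_comm]
        simp only [Matrix.mul_assoc]
      have h4 : star (B * QQ k).trace = (B * QQ k).trace := by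
        rw [← Matrix.trace_conjTranspose, Matrix.conjTranspose_mul, hBH.eq,
          (isHermitian_QQ k).eq, Matrix.trace_mul_comm]
      have h5 : (B * QQ k).trace.im = 0 := by
        have h6 := congrArg Complex.im h4
        simp only [RCLike.star_def, Complex.conj_im] at h6
        linarith
      rw [h3] at h5 ⊢
      exact Complex.ext rfl h5
    rw [wt_mul_born, est_act, h2, Complex.coe_smul, ← Matrix.smul_mul, ← Matrix.mul_smul]
    congr 2
    rw [smul_smul, smul_smul]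
    congr 1
    field_simp
  rw [Finset.sum_congr rfl fun k _ => h1 k, ← Finset.sum_mul, ← Finset.mul_sum,
    ← Finset.smul_sum, sum_rec]
  have h8 : ((8 : ℝ)⁻¹ • ((8 : ℂ) • B)) = B := by
    ext a b
    simp
  rw [h8, hB]
  calc (A⁻¹)ᴴ * (Aᴴ * ρ.1 * A) * A⁻¹ = ((A⁻¹)ᴴ * Aᴴ) * ρ.1 * (A * A⁻¹) := by
        simp only [Matrix.mul_assoc]
    _ = ρ.1 := by rw [inv_mul_conj hA, mul_inv_self hA, Matrix.one_mul, Matrix.mul_one]

end Pool.Agent.Lib.MP_e1539f_lc
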