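import Pool.Agent.Lib.MP_e1539f_lc.Leader
import Pool.Agent.Lib.MP_e1539f_lc.Estimator
import Pool.Agent.Lib.MP_e1539f_lc.Compare

/-!
# The strategy and its regret
-/

namespace Pool.Agent.Lib.MP_e1539f_lc

open Matrix
open scoped ComplexOrder

variable {d : ℕ}

/-- The regularisation parameter of round `t + 1`. -/
noncomputable def beta (d t : ℕ) : ℝ := 3 * d + Real.sqrt d * Real.sqrt t

open Classical in
/-- The regularised leader. -/
noncomputable def leader (β : ℝ) (G : Mat d) : Mat d :=
  if h : ∃ W, IsLeader β G W then h.choose else 1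

theorem isLeader_leader [NeZero d] {β : ℝ} (hβ : 0 < β) {G : Mat d} (hG : G.IsHermitian) :
    IsLeader β G (leader β G) := by
  have h := exists_leader hβ hG
  rw [leader, dif_pos h]
  exact h.choose_spec

open Classical in
/-- An invertible `A` with `A A* = W`. -/
noncomputable def factor (W : Mat d) : {A : Mat d // IsUnit A} :=
  if h : ∃ A : Mat d, IsUnit A ∧ A * Aᴴ = W then ⟨h.choose, h.choose_spec.1⟩ else ⟨1, isUnit_one⟩

theorem factor_spec {W : Mat d} (hW : W.PosDef) : (factor W).1 * (factor W).1ᴴ = W := by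
  have h := exists_factor hW
  rw [factor, dif_pos h]
  exact h.choose_spec.2

/-- The sum of the estimates. -/
noncomputable def gain : ∀ t, History d t → Mat d
  | 0, _ => 0
  | t + 1, h => gain t h.1 +
      if h.2.2 then est (factor (leader (beta d t) (gain t h.1))).1 h.2.1.1 else 0

/-- The leader of round `t + 1`. -/
noncomputable def lead (t : ℕ) (h : History d t) : Mat d := leader (beta d t) (gain t h)

/-- The factor of the leader. -/
noncomputable def fac (t : ℕ) (h : History d t) : {A : Mat d // IsUnit A} := factor (lead t h)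

theorem gain_succ (t : ℕ) (h : History d t) (P : Action d) (b : Bool) :
    gain (t + 1) (h, (P, b)) = gain t h + if b then est (fac t h).1 P.1 else 0 := rfl

theorem isHermitian_gain (t : ℕ) (h : History d t) : (gain t h).IsHermitian := by
  induction t with
  | zero => exact isHermitian_zero
  | succ t ih =>
    obtain ⟨h, P, b⟩ := h
    rw [gain_succ]
    refine (ih h).add ?_
    split
    · exact isHermitian_est _ P.2.1
    · exact isHermitian_zero

variable [NeZero d]

theorem d_pos : (0 : ℝ) < d := by exact_mod_cast Nat.pos_of_ne_zero (NeZero.ne d)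

theorem one_le_d : (1 : ℝ) ≤ d := by exact_mod_cast Nat.pos_of_ne_zero (NeZero.ne d)

omit [NeZero d] in
theorem le_beta (t : ℕ) : 3 * (d : ℝ) ≤ beta d t := by
  unfold beta
  have : 0 ≤ Real.sqrt d * Real.sqrt t := by positivity
  linarith

theorem beta_pos (t : ℕ) : 0 < beta d t := by
  have h1 := le_beta (d := d) t
  have h2 := d_pos (d := d)
  linarith

theorem isLeader_lead (t : ℕ) (h : History d t) : IsLeader (beta d t) (gain t h) (lead t h) :=
  isLeader_leader (beta_pos t) (isHermitian_gain t h)

theorem fac_spec (t : ℕ) (h : History d t) : (fac t h).1 * (fac t h).1ᴴ = lead t h :=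
  factor_spec (isLeader_lead t h).1

/-- The strategy. -/
noncomputable def strat (d : ℕ) [NeZero d] : Strategy d (Idx d) where
  p t h k := wt (fac t h).1 k
  a t h k := act (fac t h).1 (fac t h).2 k
  p_nonneg t h k := wt_nonneg (fac t h).2 k
  p_sum t h := sum_wt (by rw [fac_spec]; exact (isLeader_lead t h).rtr_eq_one)

namespace Strategy

variable {K : Type} [Fintype K] (S : Strategy d K) (ρ : State d)

omit [NeZero d] in
theorem ex_mono (t : ℕ) {F G : History d t → ℝ} (h : ∀ x, F x ≤ G x) : S.ex ρ t F ≤ S.ex ρ t G := by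
  induction t with
  | zero => exact h ()
  | succ t ih =>
    refine ih fun x => Finset.sum_le_sum fun k _ => ?_
    refine mul_le_mul_of_nonneg_left ?_ (S.p_nonneg t x k)
    have h1 := born_nonneg ρ (S.a t x k)
    have h2 := born_le_one ρ (S.a t x k)
    exact add_le_add (mul_le_mul_of_nonneg_left (h _) h1)
      (mul_le_mul_of_nonneg_left (h _) (by linarith))

omit [NeZero d] in
theorem ex_add_const (t : ℕ) (F : History d t → ℝ) (c : ℝ) :
    S.ex ρ t (fun x => F x + c) = S.ex ρ t F + c := by
  induction t with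
  | zero => rfl
  | succ t ih =>
    show S.ex ρ t _ = S.ex ρ t _ + c
    rw [← ih]
    congr 1
    funext x
    have h1 : c = ∑ k, S.p t x k * c := by rw [← Finset.sum_mul, S.p_sum, one_mul]
    conv_rhs => rw [h1, ← Finset.sum_add_distrib]
    refine Finset.sum_congr rfl fun k _ => ?_
    ring

omit [NeZero d] in
theorem ex_div_two (t : ℕ) (F : History d t → ℝ) :
    S.ex ρ t (fun x => F x / 2) = S.ex ρ t F / 2 := by
  induction t with
  | zero => rfl
  | succ t ih =>
    show S.ex ρ t _ = S.ex ρ t _ / 2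
    rw [← ih]
    congr 1
    funext x
    rw [Finset.sum_div]
    refine Finset.sum_congr rfl fun k _ => ?_
    ring

omit [NeZero d] in
/-- A function with a controlled drift. -/
theorem ex_le_of_step (F : ∀ t, History d t → ℝ) (c : ℕ → ℝ) (T : ℕ)
    (hstep : ∀ t < T, ∀ x, ∑ k, S.p t x k *
      (born ρ (S.a t x k) * F (t + 1) (x, (S.a t x k, true)) +
        (1 - born ρ (S.a t x k)) * F (t + 1) (x, (S.a t x k, false))) ≤ F t x + c t) :
    S.ex ρ T (F T) ≤ F 0 () + ∑ t ∈ Finset.range T, c t := by
  induction T with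
  | zero => simp [ex]
  | succ T ih =>
    have ih := ih fun t ht => hstep t (ht.trans (Nat.lt_succ_self T))
    rw [Finset.sum_range_succ]
    calc S.ex ρ (T + 1) (F (T + 1)) ≤ S.ex ρ T (fun x => F T x + c T) :=
          S.ex_mono ρ T fun x => hstep T (Nat.lt_succ_self T) x
      _ = S.ex ρ T (F T) + c T := S.ex_add_const ρ T _ _
      _ ≤ _ := by linarith

end Strategy

/-! ### The potential -/

variable {ρ : State d} (D : Spectral ρ) (s : ℝ)

/-- The loss of the leader. -/
noncomputable def loss (t : ℕ) (h : History d t) : ℝ := D.lam - rtr (ρ.1 * lead t h)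

/-- The potential. -/
noncomputable def pot (t : ℕ) (h : History d t) : ℝ :=
  rtr (gain t h * lead t h) + beta d t * ldet (lead t h) - rtr (gain t h * D.u s) -
    beta d t * ldet (D.u s) - loss D t h / 2

theorem loss_nonneg (t : ℕ) (h : History d t) : 0 ≤ loss D t h :=
  D.loss_nonneg (isLeader_lead t h).1.posSemidef (isLeader_lead t h).rtr_eq_one

theorem loss_le_one (t : ℕ) (h : History d t) : loss D t h ≤ 1 :=
  D.loss_le_one (isLeader_lead t h).1.posSemidef

theorem pot_ge {s : ℝ} (hs : 0 ≤ s) (t : ℕ) (h : History d t) : -(1 / 2) ≤ pot D s t h := by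
  have h1 := (isLeader_lead t h).optimal (beta_pos t) (D.posDef_u hs) (D.rtr_u s)
  have h2 := loss_le_one D t h
  unfold pot
  linarith

theorem pot_zero_le {s : ℝ} (hs : 0 ≤ s) : pot D s 0 () ≤ beta d 0 * (D.L s - d * Real.log d) := by
  have h1 := (isLeader_lead (d := d) 0 ()).value_zero (beta_pos 0)
  have h2 := loss_nonneg D 0 ()
  have h3 := D.neg_ldet_u_le hs
  have h4 : gain (d := d) 0 () = 0 := rfl
  have h5 := mul_le_mul_of_nonneg_left h3 (beta_pos (d := d) 0).le
  unfold pot
  rw [h4] at *
  rw [Matrix.zero_mul (D.u s), rtr_zero]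
  rw [mul_sub]
  have : beta d 0 * -ldet (D.u s) = -(beta d 0 * ldet (D.u s)) := by ring
  linarith

/-- The error term of round `t + 1` caused by the change of the regularisation. -/
noncomputable def drift (d : ℕ) (s : ℝ) (t : ℕ) : ℝ :=
  Real.sqrt d / Real.sqrt t * (d * Real.log (s / (Real.sqrt t / (2 * Real.sqrt d))))

omit [NeZero d] in
theorem beta_sub_le (t : ℕ) :
    beta d (t + 1) - beta d t ≤ Real.sqrt d / Real.sqrt (t + 1 : ℕ) := by
  have h1 : (0 : ℝ) < Real.sqrt (t + 1 : ℕ) := Real.sqrt_pos.2 (by positivity)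
  have h2 : Real.sqrt (t + 1 : ℕ) * Real.sqrt (t + 1 : ℕ) = t + 1 := by
    rw [Real.mul_self_sqrt (by positivity)]
    push_cast
    ring
  have h3 : Real.sqrt t * Real.sqrt t = t := Real.mul_self_sqrt (by positivity)
  have h4 : 0 ≤ Real.sqrt t := Real.sqrt_nonneg _
  have h5 : (Real.sqrt (t + 1 : ℕ) - Real.sqrt t) * Real.sqrt (t + 1 : ℕ) ≤ 1 := by
    have h6 : Real.sqrt t ≤ Real.sqrt (t + 1 : ℕ) := Real.sqrt_le_sqrt (by push_cast; linarith)
    nlinarith
  have h7 : beta d (t + 1) - beta d t = Real.sqrt d * (Real.sqrt (t + 1 : ℕ) - Real.sqrt t) := by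
    unfold beta; ring
  rw [h7, le_div_iff₀ h1, mul_assoc]
  exact mul_le_of_le_one_right (Real.sqrt_nonneg _) h5

omit [NeZero d] in
theorem beta_mono (t : ℕ) : 0 ≤ beta d (t + 1) - beta d t := by
  have h6 : Real.sqrt t ≤ Real.sqrt (t + 1 : ℕ) := Real.sqrt_le_sqrt (by push_cast; linarith)
  have h7 : beta d (t + 1) - beta d t = Real.sqrt d * (Real.sqrt (t + 1 : ℕ) - Real.sqrt t) := by
    unfold beta; ring
  rw [h7]
  exact mul_nonneg (Real.sqrt_nonneg _) (by linarith)

theorem regular_step {s : ℝ} {t : ℕ} (h1 : Real.sqrt (t + 1 : ℕ) / (2 * Real.sqrt d) ≤ s)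
    {W : Mat d} (hW : W.PosDef) (hW1 : rtr W = 1) :
    (beta d (t + 1) - beta d t) * (ldet W - ldet (D.u s)) - (D.lam - rtr (ρ.1 * W)) / 2 ≤
      drift d s (t + 1) := by
  have hd : 0 < Real.sqrt d := Real.sqrt_pos.2 d_pos
  have ht : (0 : ℝ) < Real.sqrt (t + 1 : ℕ) := Real.sqrt_pos.2 (by positivity)
  set s' : ℝ := Real.sqrt (t + 1 : ℕ) / (2 * Real.sqrt d) with hs'
  have hs'pos : 0 < s' := by positivity
  have h2 := D.ldet_le hs'pos.le hW hW1
  have h3 := D.neg_ldet_u_le (hs'pos.le.trans h1)
  have h4 := D.L_sub_le hs'pos h1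
  have h5 := beta_sub_le (d := d) t
  have h6 := beta_mono (d := d) t
  set b := beta d (t + 1) - beta d t with hb
  have hloss := D.loss_nonneg hW.posSemidef hW1
  set l := D.lam - rtr (ρ.1 * W) with hl
  have hlog : 0 ≤ Real.log (s / s') := Real.log_nonneg (by rwa [le_div_iff₀ hs'pos, one_mul])
  have h7 : b * s' ≤ 1 / 2 := by
    calc b * s' ≤ Real.sqrt d / Real.sqrt (t + 1 : ℕ) * s' :=
          mul_le_mul_of_nonneg_right h5 hs'pos.le
      _ = 1 / 2 := by rw [hs']; field_simp
  have h8 : b * (ldet W - ldet (D.u s)) ≤ b * (s' * l + d * Real.log (s / s')) :=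
    mul_le_mul_of_nonneg_left (by linarith) h6
  have h9 : b * (d * Real.log (s / s')) ≤
      Real.sqrt d / Real.sqrt (t + 1 : ℕ) * (d * Real.log (s / s')) :=
    mul_le_mul_of_nonneg_right h5 (mul_nonneg d_pos.le hlog)
  have h10 : b * s' * l ≤ 1 / 2 * l := mul_le_mul_of_nonneg_right h7 hloss
  unfold drift
  rw [← hs']
  nlinarith

/-- The pointwise inequality for one round. -/
theorem pot_succ_le {s : ℝ} {t : ℕ} (hs : Real.sqrt (t + 1 : ℕ) / (2 * Real.sqrt d) ≤ s)
    (h : History d t) (k : Idx d) (b : Bool) :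
    pot D s (t + 1) (h, ((strat d).a t h k, b)) ≤ pot D s t h + loss D t h / 2 +
      (if b then rtr (est (fac t h).1 ((strat d).a t h k).1 * (lead t h - D.u s)) else 0) +
      2 * d ^ 2 / beta d t + drift d s (t + 1) := by
  set h' : History d (t + 1) := (h, ((strat d).a t h k, b)) with hh'
  set E : Mat d := if b then est (fac t h).1 ((strat d).a t h k).1 else 0 with hE
  have hG : gain (t + 1) h' = gain t h + E := gain_succ t h _ b
  have hEH : E.IsHermitian := by
    rw [hE]
    split
    · exact isHermitian_est _ ((strat d).a t h k).2.1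
    · exact isHermitian_zero
  have hL := isLeader_lead t h
  have hL' := isLeader_lead (t + 1) h'
  -- the leader with the new gain and the old regularisation
  have hL1 : IsLeader (beta d t) (gain t h + E) (leader (beta d t) (gain t h + E)) :=
    isLeader_leader (beta_pos t) ((isHermitian_gain t h).add hEH)
  have hsq : rtr (((fac t h).1ᴴ * E * (fac t h).1) * ((fac t h).1ᴴ * E * (fac t h).1)) ≤
      2 * d ^ 2 := by
    rw [hE]
    cases b
    · simp [rtr_zero]
    · exact rtr_est_sq (fac t h).1 (fac t h).2 k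
  have hb := le_beta (d := d) t
  have hd := d_pos (d := d)
  have hsmall : rtr (((fac t h).1ᴴ * E * (fac t h).1) * ((fac t h).1ᴴ * E * (fac t h).1)) ≤
      beta d t ^ 2 / 4 := by
    have : (3 * (d : ℝ)) ^ 2 ≤ beta d t ^ 2 := by gcongr
    nlinarith
  have h1 := hL.update hL1 (beta_pos t) (fac t h).2 (fac_spec t h) hEH hsmall
  have h2 : IsLeader (beta d (t + 1)) (gain t h + E) (lead (t + 1) h') := hG ▸ hL'
  have h3 := hL1.change h2 (beta_pos t)
  have h4 := regular_step D hs hL'.1 hL'.rtr_eq_one
  have h5 : rtr (((fac t h).1ᴴ * E * (fac t h).1) * ((fac t h).1ᴴ * E * (fac t h).1)) / beta d t ≤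
      2 * d ^ 2 / beta d t := div_le_div_of_nonneg_right hsq (beta_pos t).le
  have h6 : (if b then rtr (est (fac t h).1 ((strat d).a t h k).1 * (lead t h - D.u s)) else 0) =
      rtr (E * lead t h) - rtr (E * D.u s) := by
    rw [hE]
    cases b
    · simp [rtr_zero]
    · simp [Matrix.mul_sub, rtr_sub]
  rw [h6]
  unfold pot
  rw [hG, Matrix.add_mul _ _ (D.u s), rtr_add]
  have h7 : loss D (t + 1) h' = D.lam - rtr (ρ.1 * lead (t + 1) h') := rfl
  rw [h7]
  have h8 : (beta d (t + 1) - beta d t) * (ldet (lead (t + 1) h') - ldet (D.u s)) =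
    (beta d (t + 1) - beta d t) * ldet (lead (t + 1) h') - beta d (t + 1) * ldet (D.u s) +
      beta d t * ldet (D.u s) := by ring
  rw [h8] at h4
  linarith


/-- The combination of potential and regret. -/
noncomputable def total (t : ℕ) (h : History d t) : ℝ := pot D s t h + regret ρ t h / 2

theorem total_step {s : ℝ} {t : ℕ} (hs : Real.sqrt (t + 1 : ℕ) / (2 * Real.sqrt d) ≤ s)
    (hspos : 0 < s) (x : History d t) :
    ∑ k, (strat d).p t x k *
      (born ρ ((strat d).a t x k) * total D s (t + 1) (x, ((strat d).a t x k, true)) +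
        (1 - born ρ ((strat d).a t x k)) * total D s (t + 1) (x, ((strat d).a t x k, false))) ≤
      total D s t x + (d / s + 2 * d ^ 2 / beta d t + drift d s (t + 1)) := by
  set c : ℝ := pot D s t x + loss D t x / 2 + 2 * d ^ 2 / beta d t + drift d s (t + 1) with hc
  have hsup : (⨆ Q : Action d, born ρ Q) ≤ D.lam := by
    have : Nonempty (Action d) := ⟨(strat d).a t x (0, 0, 0)⟩
    exact ciSup_le fun Q => D.born_le_lam Q
  -- bound every term
  have h1 : ∀ k ∈ (Finset.univ : Finset (Idx d)), (strat d).p t x k *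
      (born ρ ((strat d).a t x k) * total D s (t + 1) (x, ((strat d).a t x k, true)) +
        (1 - born ρ ((strat d).a t x k)) * total D s (t + 1) (x, ((strat d).a t x k, false))) ≤
      (strat d).p t x k * (c + (regret ρ t x + D.lam) / 2) +
        (strat d).p t x k * born ρ ((strat d).a t x k) *
          rtr (est (fac t x).1 ((strat d).a t x k).1 * (lead t x - D.u s)) -
        (strat d).p t x k * born ρ ((strat d).a t x k) / 2 := by
    intro k _
    have hp := (strat d).p_nonneg t x k
    set q := born ρ ((strat d).a t x k) with hq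
    have hq0 : 0 ≤ q := born_nonneg ρ _
    have hq1 : q ≤ 1 := born_le_one ρ _
    set e := rtr (est (fac t x).1 ((strat d).a t x k).1 * (lead t x - D.u s)) with he
    have e1 := pot_succ_le D hs x k true
    have e2 := pot_succ_le D hs x k false
    simp only [if_true, Bool.false_eq_true, if_false] at e1 e2
    have f1 : total D s (t + 1) (x, ((strat d).a t x k, true)) ≤
        c + e + (regret ρ t x + (D.lam - q)) / 2 := by
      have : regret ρ (t + 1) (x, ((strat d).a t x k, true)) =
        regret ρ t x + ((⨆ Q : Action d, born ρ Q) - q) := rfl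
      unfold total
      rw [this]
      linarith
    have f2 : total D s (t + 1) (x, ((strat d).a t x k, false)) ≤
        c + (regret ρ t x + (D.lam - q)) / 2 := by
      have : regret ρ (t + 1) (x, ((strat d).a t x k, false)) =
        regret ρ t x + ((⨆ Q : Action d, born ρ Q) - q) := rfl
      unfold total
      rw [this]
      linarith
    have g1 := mul_le_mul_of_nonneg_left f1 hq0
    have g2 := mul_le_mul_of_nonneg_left f2 (sub_nonneg.2 hq1)
    have g3 := mul_le_mul_of_nonneg_left (add_le_add g1 g2) hp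
    refine g3.trans (le_of_eq ?_)
    ring
  refine (Finset.sum_le_sum h1).trans ?_
  rw [Finset.sum_sub_distrib, Finset.sum_add_distrib, ← Finset.sum_mul, (strat d).p_sum,
    ← Finset.sum_div]
  have hW := fac_spec t x
  have h2 : ∑ k, (strat d).p t x k * born ρ ((strat d).a t x k) = rtr (ρ.1 * lead t x) := by
    have := sum_wt_born ρ (fac t x).2
    rw [hW] at this
    exact this
  have h3 : ∑ k, (strat d).p t x k * born ρ ((strat d).a t x k) *
      rtr (est (fac t x).1 ((strat d).a t x k).1 * (lead t x - D.u s)) =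
      rtr (ρ.1 * lead t x) - rtr (ρ.1 * D.u s) := by
    have h4 := sum_est ρ (fac t x).2
    rw [← rtr_sub, ← Matrix.mul_sub]
    conv_rhs => rw [← h4, Finset.sum_mul, rtr_sum]
    refine Finset.sum_congr rfl fun k _ => ?_
    rw [Matrix.smul_mul, rtr_smul]
    rfl
  rw [h2, h3]
  have h5 := D.loss_u_le hspos
  have h6 : loss D t x = D.lam - rtr (ρ.1 * lead t x) := rfl
  unfold total
  linarith

theorem ex_regret_le {T : ℕ} (hT : 1 ≤ T) :
    (strat d).ex ρ T (regret ρ T) / 2 ≤ 1 / 2 +
      beta d 0 * (Real.sqrt T / Real.sqrt d) +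
      ∑ t ∈ Finset.range T, (d / (Real.sqrt T / Real.sqrt d) + 2 * d ^ 2 / beta d t +
        drift d (Real.sqrt T / Real.sqrt d) (t + 1)) := by
  obtain ⟨D⟩ := exists_spectral ρ
  have hd : 0 < Real.sqrt d := Real.sqrt_pos.2 d_pos
  have hTpos : 0 < Real.sqrt T := Real.sqrt_pos.2 (by exact_mod_cast hT)
  set s : ℝ := Real.sqrt T / Real.sqrt d with hs
  have hspos : 0 < s := by positivity
  have h1 := (strat d).ex_le_of_step ρ (fun t => total D s t)
    (fun t => d / s + 2 * d ^ 2 / beta d t + drift d s (t + 1)) T (by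
      intro t ht x
      refine total_step D ?_ hspos x
      rw [hs, div_le_div_iff₀ (by positivity) hd]
      have : Real.sqrt (t + 1 : ℕ) ≤ Real.sqrt T := Real.sqrt_le_sqrt (by exact_mod_cast ht)
      nlinarith)
  have h2 : (strat d).ex ρ T (fun x => regret ρ T x / 2 + (-(1 / 2))) ≤
      (strat d).ex ρ T (total D s T) :=
    (strat d).ex_mono ρ T fun x => by
      have := pot_ge D hspos.le T x
      unfold total
      linarith
  have h3 := (strat d).ex_add_const ρ T (fun x => regret ρ T x / 2) (-(1 / 2))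
  have h4 : (strat d).ex ρ T (fun x => regret ρ T x / 2) = (strat d).ex ρ T (regret ρ T) / 2 :=
    (strat d).ex_div_two ρ T (regret ρ T)
  have h5 := pot_zero_le D hspos.le
  have h6 : total D s 0 () = pot D s 0 () := by
    have : regret ρ 0 () = 0 := rfl
    unfold total
    rw [this]
    simp
  have h7 := D.L_sub_log_le hspos.le
  have h8 := mul_le_mul_of_nonneg_left h7 (beta_pos (d := d) 0).le
  rw [h4] at h3
  rw [h6] at h1
  linarith

end Pool.Agent.Lib.MP_e1539f_lc
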