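import Mathlib

/-!
# Mixed-state quantum bandits: definitions

States, actions, rewards, policies, the joint law of actions and rewards, regret and minimax regret.
-/

namespace Pool.Agent.Lib.MP_e1539f_lc

open MeasureTheory ProbabilityTheory
open scoped ComplexOrder

/-- The set `S_d` of density matrices on `ℂ^d`: positive semidefinite matrices of trace one. -/
def State (d : ℕ) : Type :=
  {ρ : Matrix (Fin d) (Fin d) ℂ // ρ.PosSemidef ∧ ρ.trace = 1}

/-- The set `P_d` of rank-one orthogonal projectors on `ℂ^d`. -/
def Action (d : ℕ) : Type :=
  {P : Matrix (Fin d) (Fin d) ℂ // P.IsHermitian ∧ P * P = P ∧ P.rank = 1}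

variable {d : ℕ}

noncomputable instance : TopologicalSpace (Action d) := instTopologicalSpaceSubtype

/-- `P_d` carries its Borel `σ`-algebra. -/
noncomputable instance : MeasurableSpace (Action d) := borel (Action d)

instance : BorelSpace (Action d) := ⟨rfl⟩

/-- Born's rule: `Tr (ρ P)`, the probability of the reward `1` when `P` is measured in the state
`ρ`. -/
noncomputable def born (ρ : State d) (P : Action d) : ℝ := (ρ.1 * P.1).trace.re

theorem continuous_born (ρ : State d) : Continuous (born ρ) := by
  have h : Continuous fun P : Action d => P.1 := continuous_subtype_val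
  exact Complex.continuous_re.comp ((continuous_const.matrix_mul h).matrix_trace)

/-- The law of the reward in `{0, 1}` (`true` is the reward `1`) given the action. -/
noncomputable def reward (ρ : State d) : Kernel (Action d) Bool where
  toFun P := ENNReal.ofReal (born ρ P) • Measure.dirac true +
    ENNReal.ofReal (1 - born ρ P) • Measure.dirac false
  measurable' := by
    have h : Measurable (born ρ) := (continuous_born ρ).measurable
    refine Measure.measurable_of_measurable_coe _ fun s _ => ?_
    simp only [Measure.coe_add, Measure.coe_smul, Pi.add_apply, Pi.smul_apply, smul_eq_mul]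
    exact (h.ennreal_ofReal.mul_const _).add ((h.const_sub 1).ennreal_ofReal.mul_const _)

/-- The histories `(Π_1, X_1, …, Π_t, X_t)` of length `t`, as iterated pairs. -/
def History (d : ℕ) : ℕ → Type
  | 0 => Unit
  | t + 1 => History d t × (Action d × Bool)

/-- The product `σ`-algebra on histories. -/
noncomputable instance instMeasurableSpaceHistory (d : ℕ) : ∀ t, MeasurableSpace (History d t)
  | 0 => (inferInstance : MeasurableSpace Unit)
  | t + 1 => @Prod.instMeasurableSpace _ _ (instMeasurableSpaceHistory d t) inferInstance

/-- A policy: for every `t` a probability kernel which chooses the next action given the history of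
length `t`. -/
structure Policy (d : ℕ) where
  /-- The kernel that chooses the action of round `t + 1`. -/
  choose : ∀ t, Kernel (History d t) (Action d)
  markov : ∀ t, IsMarkovKernel (choose t)

/-- Given the history of length `t`, the joint law of the next action and the next reward. -/
noncomputable def step (ρ : State d) (π : Policy d) (t : ℕ) :
    Kernel (History d t) (Action d × Bool) :=
  (π.choose t) ⊗ₖ (Kernel.prodMkLeft (History d t) (reward ρ))

/-- The joint law of the actions and the rewards of the first `t` rounds. -/
noncomputable def law (ρ : State d) (π : Policy d) : ∀ t, Measure (History d t)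
  | 0 => Measure.dirac ()
  | t + 1 => (law ρ π t) ⊗ₘ (step ρ π t)

/-- The regret `∑_{s ≤ t} (max_Q Tr (ρ Q) - Tr (ρ Π_s))` of a history of length `t`. -/
noncomputable def regret (ρ : State d) : ∀ t, History d t → ℝ
  | 0, _ => 0
  | t + 1, h => regret ρ t h.1 + ((⨆ Q : Action d, born ρ Q) - born ρ h.2.1)

/-- The expected regret after `T` rounds. -/
noncomputable def expectedRegret (ρ : State d) (π : Policy d) (T : ℕ) : ℝ :=
  ∫ h, regret ρ T h ∂(law ρ π T)

/-- The minimax regret `R*_T(d)`. -/
noncomputable def minimaxRegret (d T : ℕ) : ℝ :=
  ⨅ π : Policy d, ⨆ ρ : State d, expectedRegret ρ π T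

end Pool.Agent.Lib.MP_e1539f_lc
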