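import Pool.Agent.Lib.MP_e1539f_lc.Prob

/-!
# The sampling design

Vectors `e_i + ω e_j` with `ω` a fourth root of unity, and the matrices that reconstruct a
Hermitian matrix from the corresponding quadratic forms.
-/

namespace Pool.Agent.Lib.MP_e1539f_lc

open Matrix
open scoped ComplexOrder

variable {d : ℕ}

/-- The fourth roots of unity. -/
noncomputable def om (m : Fin 4) : ℂ := Complex.I ^ (m : ℕ)

/-- The index set of the design. -/
abbrev Idx (d : ℕ) := Fin d × Fin d × Fin 4

/-- The vectors of the design; all of them have squared norm `2`. -/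
noncomputable def vec (k : Idx d) : Fin d → ℂ :=
  if k.1 = k.2.1 then ((Real.sqrt 2 : ℝ) : ℂ) • Pi.single k.1 1
  else Pi.single k.1 1 + om k.2.2 • Pi.single k.2.1 1

/-- `2` times the projector onto the line of `vec k`. -/
noncomputable def QQ (k : Idx d) : Mat d := vecMulVec (vec k) (star (vec k))

/-- The reconstruction matrices. -/
noncomputable def ZZ (k : Idx d) : Mat d :=
  if k.1 = k.2.1 then single k.1 k.1 1
  else star (om k.2.2) • single k.1 k.2.1 1 + om k.2.2 • single k.2.1 k.1 1

theorem om_mul_star (m : Fin 4) : om m * star (om m) = 1 := by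
  unfold om
  rw [star_pow, ← mul_pow]
  simp

theorem om_ne_zero (m : Fin 4) : om m ≠ 0 := by
  intro h
  have := om_mul_star m
  rw [h] at this
  simp at this

theorem QQ_diag (i : Fin d) (m : Fin 4) : QQ (i, i, m) = (2 : ℂ) • single i i 1 := by
  have h : (((Real.sqrt 2 : ℝ) : ℂ)) * ((Real.sqrt 2 : ℝ) : ℂ) = 2 := by
    rw [← Complex.ofReal_mul, Real.mul_self_sqrt (by norm_num)]
    simp
  simp only [QQ, vec, if_true]
  rw [star_smul, vecMulVec_smul, smul_vecMulVec, smul_smul, single_eq_single_vecMulVec_single]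
  simp [h]

theorem QQ_off {i j : Fin d} (hij : i ≠ j) (m : Fin 4) :
    QQ (i, j, m) = single i i 1 + single j j 1 + star (om m) • single i j 1 +
      om m • single j i 1 := by
  simp only [QQ, vec, if_neg hij]
  rw [star_add, star_smul, vecMulVec_add, add_vecMulVec, add_vecMulVec, vecMulVec_smul,
    smul_vecMulVec, smul_vecMulVec, vecMulVec_smul, smul_smul, om_mul_star]
  simp only [Pi.star_single, star_one, ← single_eq_single_vecMulVec_single, one_smul]
  abel

theorem ZZ_diag (i : Fin d) (m : Fin 4) : ZZ (i, i, m) = single i i 1 := by simp [ZZ]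

theorem ZZ_off {i j : Fin d} (hij : i ≠ j) (m : Fin 4) :
    ZZ (i, j, m) = star (om m) • single i j 1 + om m • single j i 1 := by
  simp [ZZ, hij]

theorem sum_QQ_fin4 (i j : Fin d) :
    ∑ m, QQ (i, j, m) = (4 : ℂ) • (single i i 1 + single j j 1) := by
  by_cases hij : i = j
  · subst hij
    simp only [QQ_diag, Finset.sum_const, Finset.card_univ, Fintype.card_fin]
    module
  · simp only [QQ_off hij, Fin.sum_univ_four, om]
    simp only [Fin.val_zero, Fin.val_one, pow_zero, pow_one, Fin.val_two,
      show ((3 : Fin 4) : ℕ) = 3 from rfl, Complex.I_sq, Complex.I_pow_three]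
    simp only [star_one, star_neg, RCLike.star_def, Complex.conj_I]
    module

theorem trace_mul_single (B : Mat d) (i j : Fin d) : (B * single i j 1).trace = B j i := by
  rw [Matrix.trace_mul_single]
  simp

theorem sum_rec_fin4 (B : Mat d) (i j : Fin d) :
    ∑ m, (B * QQ (i, j, m)).trace • ZZ (i, j, m) =
      (4 : ℂ) • (B i j • single i j 1 + B j i • single j i 1) := by
  by_cases hij : i = j
  · subst hij
    simp only [QQ_diag, ZZ_diag, Finset.sum_const, Finset.card_univ, Fintype.card_fin,
      Matrix.mul_smul, Matrix.trace_smul, trace_mul_single, smul_eq_mul]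
    module
  · simp only [QQ_off hij, ZZ_off hij, Matrix.mul_add, Matrix.mul_smul, Matrix.trace_add,
      Matrix.trace_smul, trace_mul_single, smul_eq_mul, Fin.sum_univ_four, om]
    simp only [Fin.val_zero, Fin.val_one, pow_zero, pow_one, Fin.val_two,
      show ((3 : Fin 4) : ℕ) = 3 from rfl, Complex.I_sq, Complex.I_pow_three]
    simp only [star_one, star_neg, RCLike.star_def, Complex.conj_I]
    match_scalars <;> ring_nf <;> simp <;> ring


theorem sum_QQ : ∑ k : Idx d, QQ k = ((8 * d : ℝ) : ℂ) • (1 : Mat d) := by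
  have h1 : ∀ i : Fin d, ∑ j : Fin d, ∑ m, QQ (i, j, m) =
      (4 : ℂ) • ((d : ℂ) • single i i 1 + 1) := by
    intro i
    simp only [sum_QQ_fin4, ← Finset.smul_sum, Finset.sum_add_distrib, Finset.sum_const,
      Finset.card_univ, Fintype.card_fin, Matrix.sum_single_one]
    congr 2
    module
  rw [Fintype.sum_prod_type]
  simp only [Fintype.sum_prod_type, h1]
  simp only [← Finset.smul_sum, Finset.sum_add_distrib, Matrix.sum_single_one, Finset.sum_const,
      Finset.card_univ, Fintype.card_fin]
  push_cast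
  module

theorem sum_rec (B : Mat d) : ∑ k : Idx d, (B * QQ k).trace • ZZ k = (8 : ℂ) • B := by
  rw [Fintype.sum_prod_type]
  simp only [Fintype.sum_prod_type, sum_rec_fin4]
  simp only [← Finset.smul_sum, Finset.sum_add_distrib]
  have h1 : ∑ i : Fin d, ∑ j : Fin d, B i j • (single i j 1 : Mat d) = B := by
    conv_rhs => rw [matrix_eq_sum_single B]
    refine Finset.sum_congr rfl fun i _ => Finset.sum_congr rfl fun j _ => ?_
    rw [smul_single, smul_eq_mul, mul_one]
  have h2 : ∑ i : Fin d, ∑ j : Fin d, B j i • (single j i 1 : Mat d) = B := by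
    rw [Finset.sum_comm]
    exact h1
  rw [h1, h2]
  module

theorem isHermitian_QQ (k : Idx d) : (QQ k).IsHermitian := by
  rw [Matrix.IsHermitian, QQ, conjTranspose_vecMulVec, star_star]

theorem isHermitian_ZZ (k : Idx d) : (ZZ k).IsHermitian := by
  obtain ⟨i, j, m⟩ := k
  rw [Matrix.IsHermitian]
  by_cases hij : i = j
  · subst hij
    rw [ZZ_diag]
    simp
  · rw [ZZ_off hij]
    rw [conjTranspose_add, conjTranspose_smul, conjTranspose_smul, star_star]
    simp only [conjTranspose_single, star_one]
    abel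

/-- The squared Frobenius norm of a reconstruction matrix is at most `2`. -/
theorem rtr_ZZ_sq (k : Idx d) : rtr (ZZ k * ZZ k) ≤ 2 := by
  obtain ⟨i, j, m⟩ := k
  by_cases hij : i = j
  · subst hij
    rw [ZZ_diag, rtr, single_mul_single_same, trace_single_eq_same]
    simp
  · have hji : j ≠ i := fun h => hij h.symm
    have e1 : (single i j 1 : Mat d) * single i j 1 = 0 := single_mul_single_of_ne _ _ _ _ hji _
    have e2 : (single j i 1 : Mat d) * single j i 1 = 0 := single_mul_single_of_ne _ _ _ _ hij _
    rw [ZZ_off hij, rtr]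
    simp only [Matrix.add_mul, Matrix.mul_add, Matrix.smul_mul, Matrix.mul_smul,
      single_mul_single_same, e1, e2, smul_zero, zero_add, add_zero, Matrix.trace_add,
      Matrix.trace_smul, trace_single_eq_same, smul_eq_mul, mul_one]
    rw [om_mul_star, mul_comm (star (om m)), om_mul_star]
    norm_num

/-! ### Rank-one projectors -/

theorem vec_ne_zero (k : Idx d) : vec k ≠ 0 := by
  obtain ⟨i, j, m⟩ := k
  intro h
  by_cases hij : i = j
  · subst hij
    have h1 := congrFun h i
    simp [vec] at h1
  · have h1 := congrFun h i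
    simp [vec, hij] at h1

theorem normSq_pos {v : Fin d → ℂ} (hv : v ≠ 0) : 0 < rtr (vecMulVec v (star v)) := by
  have h1 : 0 ≤ rtr (vecMulVec v (star v)) :=
    (RCLike.nonneg_iff.mp (posSemidef_vecMulVec_self_star v).trace_nonneg).1
  refine lt_of_le_of_ne h1 fun h => hv ?_
  have h2 : (vecMulVec v (star v)).trace.im = 0 :=
    (RCLike.nonneg_iff.mp (posSemidef_vecMulVec_self_star v).trace_nonneg).2
  have h3 : (vecMulVec v (star v)).trace = 0 := Complex.ext h.symm h2
  rw [Matrix.trace_vecMulVec] at h3
  exact dotProduct_self_star_eq_zero.1 h3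

theorem trace_eq_rtr {X : Mat d} (hX : X.IsHermitian) : X.trace = (rtr X : ℂ) := by
  refine Complex.ext rfl ?_
  have h : star X.trace = X.trace := by
    rw [← Matrix.trace_conjTranspose, hX.eq]
  have h2 := congrArg Complex.im h
  simp only [RCLike.star_def, Complex.conj_im] at h2
  simp only [Complex.ofReal_im]
  linarith

/-- The rank-one projector onto the line of a nonzero vector. -/
noncomputable def mkAction (v : Fin d → ℂ) (hv : v ≠ 0) : Action d :=
  ⟨(rtr (vecMulVec v (star v)))⁻¹ • vecMulVec v (star v), by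
    have hH : (vecMulVec v (star v)).IsHermitian := by
      rw [Matrix.IsHermitian, conjTranspose_vecMulVec, star_star]
    have hpos := normSq_pos hv
    have hSS : vecMulVec v (star v) * vecMulVec v (star v) =
        rtr (vecMulVec v (star v)) • vecMulVec v (star v) := by
      rw [vecMulVec_mul_vecMulVec, vecMulVec_smul]
      have h1 : star v ⬝ᵥ v = (rtr (vecMulVec v (star v)) : ℂ) := by
        rw [← trace_eq_rtr hH, Matrix.trace_vecMulVec, dotProduct_comm]
      rw [h1]
      simp
    refine ⟨?_, ?_, ?_⟩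
    · rw [Matrix.IsHermitian, Matrix.conjTranspose_smul, hH.eq]
      simp
    · rw [Matrix.smul_mul, Matrix.mul_smul, hSS, smul_smul, smul_smul]
      congr 1
      field_simp
    · apply le_antisymm
      · rw [← smul_vecMulVec]
        exact rank_vecMulVec_le _ _
      · rw [Nat.one_le_iff_ne_zero]
        intro h0
        have hP : ((rtr (vecMulVec v (star v)))⁻¹ • vecMulVec v (star v)).IsHermitian := by
          rw [Matrix.IsHermitian, Matrix.conjTranspose_smul, hH.eq]
          simp
        rw [hP.rank_eq_card_non_zero_eigs, Fintype.card_eq_zero_iff] at h0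
        have h1 : hP.eigenvalues = 0 := by
          funext i
          by_contra hi
          exact h0.false ⟨i, hi⟩
        have h2 := hP.eigenvalues_eq_zero_iff.1 h1
        have h3 := congrArg rtr h2
        rw [rtr_smul, inv_mul_cancel₀ hpos.ne', rtr_zero] at h3
        exact one_ne_zero h3⟩


theorem mkAction_val (v : Fin d → ℂ) (hv : v ≠ 0) :
    (mkAction v hv).1 = (rtr (vecMulVec v (star v)))⁻¹ • vecMulVec v (star v) := rfl

/-! ### Distorting the design -/

theorem conj_QQ (A : Mat d) (k : Idx d) :
    vecMulVec (A *ᵥ vec k) (star (A *ᵥ vec k)) = A * QQ k * Aᴴ := by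
  rw [QQ, mul_vecMulVec, vecMulVec_mul, star_mulVec]

theorem mulVec_vec_ne_zero {A : Mat d} (hA : IsUnit A) (k : Idx d) : A *ᵥ vec k ≠ 0 := by
  intro h
  have h1 : A⁻¹ *ᵥ (A *ᵥ vec k) = vec k := by
    rw [Matrix.mulVec_mulVec, Matrix.nonsing_inv_mul _ ((Matrix.isUnit_iff_isUnit_det _).1 hA),
      Matrix.one_mulVec]
  rw [h, Matrix.mulVec_zero] at h1
  exact vec_ne_zero k h1.symm

/-- The action of the distorted design. -/
noncomputable def act (A : Mat d) (hA : IsUnit A) (k : Idx d) : Action d :=
  mkAction (A *ᵥ vec k) (mulVec_vec_ne_zero hA k)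

theorem act_val (A : Mat d) (hA : IsUnit A) (k : Idx d) :
    (act A hA k).1 = (rtr (A * QQ k * Aᴴ))⁻¹ • (A * QQ k * Aᴴ) := by
  rw [act, mkAction_val, conj_QQ]

theorem rtr_conj_QQ_pos {A : Mat d} (hA : IsUnit A) (k : Idx d) : 0 < rtr (A * QQ k * Aᴴ) := by
  rw [← conj_QQ]
  exact normSq_pos (mulVec_vec_ne_zero hA k)

theorem sum_rtr_conj_QQ (A : Mat d) (B : Mat d) :
    ∑ k : Idx d, rtr (B * (A * QQ k * Aᴴ)) = 8 * d * rtr (B * (A * Aᴴ)) := by
  rw [← rtr_sum, ← Finset.mul_sum, ← Finset.sum_mul, ← Finset.mul_sum, sum_QQ]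
  have : A * ((((8 * d : ℝ)) : ℂ) • (1 : Mat d)) * Aᴴ = (8 * d : ℝ) • (A * Aᴴ) := by
    rw [Matrix.mul_smul, Matrix.mul_one, Matrix.smul_mul]
    rfl
  rw [this, Matrix.mul_smul, rtr_smul]

/-- The part of a matrix off the diagonal. -/
noncomputable def offd (Q : Mat d) : Mat d := Q - diagonal Q.diag

/-- The reconstruction matrix as a function of the projector. -/
noncomputable def recon (Q : Mat d) : Mat d := if offd Q = 0 then Q else (2 : ℝ) • offd Q

theorem isHermitian_offd {Q : Mat d} (hQ : Q.IsHermitian) : (offd Q).IsHermitian := by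
  rw [Matrix.IsHermitian, offd, conjTranspose_sub, hQ.eq, diagonal_conjTranspose]
  congr 2
  funext i
  exact hQ.apply i i

theorem isHermitian_recon {Q : Mat d} (hQ : Q.IsHermitian) : (recon Q).IsHermitian := by
  unfold recon
  split
  · exact hQ
  · rw [Matrix.IsHermitian, Matrix.conjTranspose_smul, (isHermitian_offd hQ).eq]
    simp

theorem rtr_QQ (k : Idx d) : rtr (QQ k) = 2 := by
  obtain ⟨i, j, m⟩ := k
  by_cases hij : i = j
  · subst hij
    rw [QQ_diag, rtr, Matrix.trace_smul, trace_single_eq_same]
    simp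
  · have hji : j ≠ i := fun h => hij h.symm
    rw [QQ_off hij, rtr]
    simp only [Matrix.trace_add, Matrix.trace_smul, trace_single_eq_same,
      trace_single_eq_of_ne _ _ _ hij, trace_single_eq_of_ne _ _ _ hji]
    norm_num

theorem recon_QQ (k : Idx d) : recon ((2 : ℝ)⁻¹ • QQ k) = ZZ k := by
  obtain ⟨i, j, m⟩ := k
  by_cases hij : i = j
  · subst hij
    have h1 : (2 : ℝ)⁻¹ • QQ (i, i, m) = single i i (1 : ℂ) := by
      rw [QQ_diag]
      ext a b
      simp [single_apply]
    have h2 : offd (single i i (1 : ℂ)) = 0 := by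
      rw [offd, diag_single_same]
      ext a b
      by_cases hab : a = b
      · subst hab
        simp [single_apply, Pi.single_apply, eq_comm]
      · simp [single_apply, hab]
        rintro rfl h
        exact hab h
    rw [h1, recon, if_pos h2, ZZ_diag]
  · have h1 : offd ((2 : ℝ)⁻¹ • QQ (i, j, m)) = (2 : ℝ)⁻¹ • ZZ (i, j, m) := by
      rw [QQ_off hij, ZZ_off hij, offd]
      ext a b
      by_cases hab : a = b
      · subst hab
        have e1 : ¬ (i = a ∧ j = a) := fun h => hij (h.1.trans h.2.symm)
        have e2 : ¬ (j = a ∧ i = a) := fun h => hij (h.2.trans h.1.symm)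
        simp [single_apply, e1, e2]
        simp [Pi.single_apply, @eq_comm _ a]
      · have e1 : ¬ (i = a ∧ i = b) := fun h => hab (h.1.symm.trans h.2)
        have e2 : ¬ (j = a ∧ j = b) := fun h => hab (h.1.symm.trans h.2)
        simp [single_apply, hab, e1, e2]
    have h2 : ZZ (i, j, m) ≠ 0 := by
      intro h
      have h3 := congrFun (congrFun h i) j
      rw [ZZ_off hij] at h3
      simp [hij, om_ne_zero] at h3
    rw [recon, if_neg, h1, smul_smul]
    · simp
    · rw [h1]
      intro h
      rw [smul_eq_zero] at h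
      rcases h with h | h
      · norm_num at h
      · exact h2 h

end Pool.Agent.Lib.MP_e1539f_lc
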