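import Pool.Agent.Lib.MP_e1539f_lc.Algorithm

/-!
# The upper bound for the minimax regret
-/

namespace Pool.Agent.Lib.MP_e1539f_lc

open MeasureTheory ProbabilityTheory Matrix

variable {d : ℕ}

/-! ### The expected regret is well defined, nonnegative and at most `T` -/

theorem bddAbove_born (ρ : State d) : BddAbove (Set.range (born ρ)) :=
  ⟨1, by rintro _ ⟨Q, rfl⟩; exact born_le_one ρ Q⟩

theorem measurable_regret (ρ : State d) (t : ℕ) : Measurable (regret ρ t) := by
  induction t with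
  | zero => exact measurable_const
  | succ t ih =>
    have h1 : Measurable fun h : History d t × (Action d × Bool) => regret ρ t h.1 :=
      ih.comp measurable_fst
    have h2 : Measurable fun h : History d t × (Action d × Bool) => born ρ h.2.1 :=
      (continuous_born ρ).measurable.comp (measurable_fst.comp measurable_snd)
    exact h1.add (measurable_const.sub h2)

theorem regret_nonneg (ρ : State d) (t : ℕ) (h : History d t) : 0 ≤ regret ρ t h := by
  induction t with
  | zero => exact le_rfl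
  | succ t ih =>
    have h1 := le_ciSup (bddAbove_born ρ) h.2.1
    have h2 := ih h.1
    show 0 ≤ regret ρ t h.1 + ((⨆ Q : Action d, born ρ Q) - born ρ h.2.1)
    linarith

theorem regret_le (ρ : State d) (t : ℕ) (h : History d t) : regret ρ t h ≤ t := by
  induction t with
  | zero => simp [regret]
  | succ t ih =>
    have h0 : Nonempty (Action d) := ⟨h.2.1⟩
    have h1 : (⨆ Q : Action d, born ρ Q) ≤ 1 := ciSup_le fun Q => born_le_one ρ Q
    have h2 := ih h.1
    have h3 := born_nonneg ρ h.2.1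
    show regret ρ t h.1 + ((⨆ Q : Action d, born ρ Q) - born ρ h.2.1) ≤ ((t + 1 : ℕ) : ℝ)
    push_cast
    linarith

theorem integrable_regret (ρ : State d) (π : Policy d) (t : ℕ) :
    Integrable (regret ρ t) (law ρ π t) := by
  refine Integrable.of_bound (measurable_regret ρ t).aestronglyMeasurable (t : ℝ) ?_
  filter_upwards with h
  rw [Real.norm_eq_abs, abs_of_nonneg (regret_nonneg ρ t h)]
  exact regret_le ρ t h

theorem expectedRegret_nonneg (ρ : State d) (π : Policy d) (T : ℕ) :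
    0 ≤ expectedRegret ρ π T := integral_nonneg fun h => regret_nonneg ρ T h

theorem expectedRegret_le (ρ : State d) (π : Policy d) (T : ℕ) : expectedRegret ρ π T ≤ T := by
  calc expectedRegret ρ π T ≤ ∫ _h, (T : ℝ) ∂(law ρ π T) :=
        integral_mono (integrable_regret ρ π T) (integrable_const _) fun h => regret_le ρ T h
    _ = T := by simp

/-! ### Sums -/

theorem sum_inv_sqrt_le (T : ℕ) :
    ∑ t ∈ Finset.range T, 1 / Real.sqrt (t + 1 : ℕ) ≤ 2 * Real.sqrt T := by
  induction T with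
  | zero => simp
  | succ T ih =>
    rw [Finset.sum_range_succ]
    have h1 : (0 : ℝ) < Real.sqrt (T + 1 : ℕ) := Real.sqrt_pos.2 (by positivity)
    have h2 : Real.sqrt (T + 1 : ℕ) * Real.sqrt (T + 1 : ℕ) = T + 1 := by
      rw [Real.mul_self_sqrt (by positivity)]
      push_cast
      ring
    have h3 : Real.sqrt T * Real.sqrt T = T := Real.mul_self_sqrt (by positivity)
    have h4 : 1 / Real.sqrt (T + 1 : ℕ) ≤ 2 * (Real.sqrt (T + 1 : ℕ) - Real.sqrt T) := by
      rw [div_le_iff₀ h1]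
      nlinarith [sq_nonneg (Real.sqrt (T + 1 : ℕ) - Real.sqrt T)]
    linarith

/-- The fourth root. -/
noncomputable def rt (t : ℕ) : ℝ := Real.sqrt (Real.sqrt t)

theorem rt_sq (t : ℕ) : rt t * rt t = Real.sqrt t := Real.mul_self_sqrt (Real.sqrt_nonneg _)

theorem rt_nonneg (t : ℕ) : 0 ≤ rt t := Real.sqrt_nonneg _

theorem rt_pos {t : ℕ} (ht : 0 < t) : 0 < rt t :=
  Real.sqrt_pos.2 (Real.sqrt_pos.2 (by exact_mod_cast ht))

theorem rt_four (t : ℕ) : rt t ^ 4 = t := by
  have h1 : Real.sqrt t * Real.sqrt t = t := Real.mul_self_sqrt (by positivity)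
  calc rt t ^ 4 = (rt t * rt t) * (rt t * rt t) := by ring
    _ = t := by rw [rt_sq, h1]

theorem sum_inv_rt_le (T : ℕ) :
    ∑ t ∈ Finset.range T, 1 / rt (t + 1) ^ 3 ≤ 4 * rt T := by
  induction T with
  | zero => simp [rt]
  | succ T ih =>
    rw [Finset.sum_range_succ]
    have h1 : 0 < rt (T + 1) := rt_pos (Nat.succ_pos T)
    have h2 := rt_four (T + 1)
    have h3 := rt_four T
    have h4 : rt T ≤ rt (T + 1) := Real.sqrt_le_sqrt (Real.sqrt_le_sqrt (by push_cast; linarith))
    have h0 := rt_nonneg T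
    set x := rt (T + 1)
    set y := rt T
    have h5 : 1 / x ^ 3 ≤ 4 * (x - y) := by
      rw [div_le_iff₀ (by positivity)]
      have h6 : x ^ 4 - y ^ 4 = 1 := by rw [h2, h3]; push_cast; ring
      have h7 : x ^ 4 - y ^ 4 = (x - y) * (x ^ 3 + x ^ 2 * y + x * y ^ 2 + y ^ 3) := by ring
      have h8 : x ^ 3 + x ^ 2 * y + x * y ^ 2 + y ^ 3 ≤ 4 * x ^ 3 := by
        have e1 : x ^ 2 * y ≤ x ^ 2 * x := by gcongr
        have e2 : x * y ^ 2 ≤ x * x ^ 2 := by gcongr
        have e3 : y ^ 3 ≤ x ^ 3 := by gcongr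
        nlinarith
      have h9 := mul_le_mul_of_nonneg_left h8 (sub_nonneg.2 h4)
      nlinarith
    linarith

variable [NeZero d]

theorem drift_le {T t : ℕ} (hT : 1 ≤ T) :
    drift d (Real.sqrt T / Real.sqrt d) (t + 1) ≤
      3 * (d * Real.sqrt d) * rt T * (1 / rt (t + 1) ^ 3) := by
  have hd : 0 < Real.sqrt d := Real.sqrt_pos.2 d_pos
  have hd' := d_pos (d := d)
  have h1 : 0 < rt (t + 1) := rt_pos (Nat.succ_pos t)
  have h2 : 0 < rt T := rt_pos hT
  unfold drift
  rw [← rt_sq T, ← rt_sq (t + 1)]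
  have h3 : rt T * rt T / Real.sqrt d / (rt (t + 1) * rt (t + 1) / (2 * Real.sqrt d)) =
      2 * (rt T / rt (t + 1)) ^ 2 := by
    field_simp
  rw [h3]
  set z := rt T / rt (t + 1) with hz
  have hzpos : 0 < z := div_pos h2 h1
  have h4 : Real.log (2 * z ^ 2) ≤ 3 * z := by
    have h5 : Real.sqrt 2 < 3 / 2 := by
      rw [Real.sqrt_lt' (by norm_num)]
      norm_num
    have h6 : 2 * z ^ 2 = (Real.sqrt 2 * z) ^ 2 := by
      rw [mul_pow, Real.sq_sqrt (by norm_num)]
    rw [h6, Real.log_pow]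
    have h7 : Real.log (Real.sqrt 2 * z) ≤ Real.sqrt 2 * z - 1 :=
      Real.log_le_sub_one_of_pos (by positivity)
    push_cast
    nlinarith
  calc Real.sqrt d / (rt (t + 1) * rt (t + 1)) * (d * Real.log (2 * z ^ 2)) ≤
      Real.sqrt d / (rt (t + 1) * rt (t + 1)) * (d * (3 * z)) := by gcongr
    _ = 3 * (d * Real.sqrt d) * rt T * (1 / rt (t + 1) ^ 3) := by
      rw [hz]
      field_simp

theorem two_div_beta_le (t : ℕ) :
    2 * (d : ℝ) ^ 2 / beta d t ≤ 2 * (d * Real.sqrt d) * (1 / Real.sqrt (t + 1 : ℕ)) := by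
  have hd : 0 < Real.sqrt d := Real.sqrt_pos.2 d_pos
  have hd' := one_le_d (d := d)
  have h1 : (0 : ℝ) < Real.sqrt (t + 1 : ℕ) := Real.sqrt_pos.2 (by positivity)
  have h2 : Real.sqrt d * Real.sqrt d = d := Real.mul_self_sqrt (by positivity)
  have h3 : Real.sqrt (t + 1 : ℕ) ≤ Real.sqrt t + 1 := by
    rw [Real.sqrt_le_left (by positivity)]
    have : Real.sqrt t ^ 2 = t := Real.sq_sqrt (by positivity)
    push_cast
    nlinarith [Real.sqrt_nonneg (t : ℝ)]
  have h4 : Real.sqrt d ≤ 3 * d := by nlinarith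
  have h5 : Real.sqrt d * Real.sqrt (t + 1 : ℕ) ≤ beta d t := by
    unfold beta
    nlinarith
  rw [mul_one_div, div_le_div_iff₀ (beta_pos t) h1]
  calc 2 * (d : ℝ) ^ 2 * Real.sqrt (t + 1 : ℕ) =
      2 * (d * Real.sqrt d) * (Real.sqrt d * Real.sqrt (t + 1 : ℕ)) := by
        rw [pow_two]
        nth_rewrite 2 [← h2]
        ring
    _ ≤ 2 * (d * Real.sqrt d) * beta d t := by gcongr

theorem ex_le (ρ : State d) {T : ℕ} (hT : 1 ≤ T) :
    (strat d).ex ρ T (regret ρ T) ≤ 41 * (d * Real.sqrt d) * Real.sqrt T := by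
  have hd : 0 < Real.sqrt d := Real.sqrt_pos.2 d_pos
  have hd' := one_le_d (d := d)
  have h2 : Real.sqrt d * Real.sqrt d = d := Real.mul_self_sqrt (by positivity)
  have hT1 : 1 ≤ Real.sqrt T := by
    rw [Real.one_le_sqrt]
    exact_mod_cast hT
  have hT2 : Real.sqrt T * Real.sqrt T = T := Real.mul_self_sqrt (by positivity)
  have hd1 : 1 ≤ Real.sqrt d := by
    rw [Real.one_le_sqrt]
    exact hd'
  have h := ex_regret_le (ρ := ρ) hT
  have hsum : ∑ t ∈ Finset.range T, (d / (Real.sqrt T / Real.sqrt d) + 2 * d ^ 2 / beta d t +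
        drift d (Real.sqrt T / Real.sqrt d) (t + 1)) ≤ 17 * (d * Real.sqrt d) * Real.sqrt T := by
    rw [Finset.sum_add_distrib, Finset.sum_add_distrib]
    have e1 : ∑ _t ∈ Finset.range T, (d : ℝ) / (Real.sqrt T / Real.sqrt d) =
        d * Real.sqrt d * Real.sqrt T := by
      rw [Finset.sum_const, Finset.card_range, nsmul_eq_mul]
      nth_rewrite 1 [← hT2]
      field_simp
    have e2 : ∑ t ∈ Finset.range T, 2 * (d : ℝ) ^ 2 / beta d t ≤
        2 * (d * Real.sqrt d) * (2 * Real.sqrt T) := by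
      refine (Finset.sum_le_sum fun t _ => two_div_beta_le t).trans ?_
      rw [← Finset.mul_sum]
      gcongr
      exact sum_inv_sqrt_le T
    have e3 : ∑ t ∈ Finset.range T, drift d (Real.sqrt T / Real.sqrt d) (t + 1) ≤
        3 * (d * Real.sqrt d) * rt T * (4 * rt T) := by
      refine (Finset.sum_le_sum fun t _ => drift_le hT).trans ?_
      rw [← Finset.mul_sum]
      have := rt_nonneg T
      gcongr
      exact sum_inv_rt_le T
    have e4 : 3 * (d * Real.sqrt d) * rt T * (4 * rt T) = 12 * (d * Real.sqrt d) * Real.sqrt T := by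
      rw [← rt_sq T]; ring
    rw [e1]
    linarith
  have hb : beta d 0 * (Real.sqrt T / Real.sqrt d) ≤ 3 * (d * Real.sqrt d) * Real.sqrt T := by
    have : beta d 0 = 3 * d := by simp [beta]
    rw [this, mul_div_assoc', div_le_iff₀ hd]
    have h5 : 3 * (d : ℝ) * Real.sqrt T * 1 ≤ 3 * (d : ℝ) * Real.sqrt T * (Real.sqrt d * Real.sqrt d) := by
      gcongr
      nlinarith
    linarith
  have h6 : (1 : ℝ) ≤ d * Real.sqrt d * Real.sqrt T := by
    have : (1 : ℝ) ≤ d * Real.sqrt d := by nlinarith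
    nlinarith
  linarith

/-- For every horizon there is a policy with regret at most `41 d^{3/2} √T` in every state. -/
theorem exists_policy (T : ℕ) : ∃ π : Policy d, ∀ ρ : State d,
    expectedRegret ρ π T ≤ 41 * (d : ℝ) ^ (3 / 2 : ℝ) * Real.sqrt T := by
  have hpow : (d : ℝ) ^ (3 / 2 : ℝ) = d * Real.sqrt d := by
    rw [show (3 / 2 : ℝ) = 1 + 1 / 2 by norm_num, Real.rpow_add d_pos, Real.rpow_one,
      Real.sqrt_eq_rpow]
  rw [hpow]
  let a₀ : Action d := (strat d).a 0 () (0, 0, 0)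
  refine ⟨(strat d).policy a₀, fun ρ => ?_⟩
  rw [expectedRegret, (strat d).integral_law ρ a₀ T]
  rcases Nat.eq_zero_or_pos T with rfl | hT
  · have h : (strat d).ex ρ 0 (regret ρ 0) = 0 := rfl
    rw [h]
    simp
  · exact ex_le ρ hT

theorem minimaxRegret_le (T : ℕ) :
    minimaxRegret d T ≤ 41 * (d : ℝ) ^ (3 / 2 : ℝ) * Real.sqrt T := by
  obtain ⟨π, hπ⟩ := exists_policy (d := d) T
  refine ciInf_le_of_le ⟨0, ?_⟩ π (Real.iSup_le hπ (by positivity))
  rintro _ ⟨π', rfl⟩
  exact Real.iSup_nonneg fun ρ => expectedRegret_nonneg ρ π' T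

end Pool.Agent.Lib.MP_e1539f_lc
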