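import Pool.Agent.Lib.MP_e1539f_lc.LinAlg

/-!
# The regularised leader

For a Hermitian matrix `G` and `β > 0`, the leader `W` maximises `Tr (G W) + β log det W` over
density matrices.  We use its first-order condition `(λ - G) W = β`.
-/

namespace Pool.Agent.Lib.MP_e1539f_lc

open Matrix
open scoped ComplexOrder

variable {d : ℕ}

/-- `W` is the leader for the cumulative gain `G` and the regularisation parameter `β`. -/
def IsLeader (β : ℝ) (G W : Mat d) : Prop :=
  W.PosDef ∧ W.trace = 1 ∧ ∃ l : ℝ, (l • (1 : Mat d) - G) * W = β • (1 : Mat d)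

theorem exists_leader [NeZero d] {β : ℝ} (hβ : 0 < β) {G : Mat d} (hG : G.IsHermitian) :
    ∃ W, IsLeader β G W := by
  obtain ⟨U, g, rfl⟩ := exists_sp hG
  obtain ⟨i₀, -, hi₀⟩ := Finset.exists_max_image (Finset.univ : Finset (Fin d)) g
    ⟨0, Finset.mem_univ _⟩
  have hi₀ : ∀ i, g i ≤ g i₀ := fun i => hi₀ i (Finset.mem_univ i)
  -- choose the multiplier by the intermediate value theorem
  let F : ℝ → ℝ := fun l => ∑ i, β / (l - g i)
  have hd : (1 : ℝ) ≤ d := by
    have : 0 < d := Nat.pos_of_ne_zero (NeZero.ne d)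
    exact_mod_cast this
  have hcont : ContinuousOn F (Set.Icc (g i₀ + β) (g i₀ + d * β)) := by
    refine continuousOn_finsetSum _ fun i _ => ?_
    refine continuousOn_const.div (continuousOn_id.sub continuousOn_const) ?_
    intro l hl
    have h1 := hi₀ i
    have h2 := hl.1
    have h3 : 0 < l - g i := by linarith
    exact h3.ne'
  have hle : g i₀ + β ≤ g i₀ + d * β := by nlinarith
  have h1 : 1 ≤ F (g i₀ + β) := by
    have : β / (g i₀ + β - g i₀) ≤ F (g i₀ + β) :=
      Finset.single_le_sum (f := fun i => β / (g i₀ + β - g i))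
        (fun i _ => div_nonneg hβ.le (by have := hi₀ i; linarith)) (Finset.mem_univ i₀)
    rwa [add_sub_cancel_left, div_self hβ.ne'] at this
  have h2 : F (g i₀ + d * β) ≤ 1 := by
    have h3 : ∀ i ∈ Finset.univ, β / (g i₀ + d * β - g i) ≤ (1 : ℝ) / d := by
      intro i _
      have := hi₀ i
      have h4 : 0 < (d : ℝ) * β := by positivity
      rw [div_le_div_iff₀ (by linarith) (by linarith)]
      linarith
    calc F (g i₀ + d * β) ≤ ∑ _i : Fin d, (1 : ℝ) / d := Finset.sum_le_sum h3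
      _ = 1 := by
        rw [Finset.sum_const, Finset.card_univ, Fintype.card_fin, nsmul_eq_mul]
        field_simp
  obtain ⟨l, hl, hFl⟩ := intermediate_value_Icc' hle hcont ⟨h2, h1⟩
  have hpos : ∀ i, 0 < l - g i := fun i => by have := hi₀ i; have := hl.1; linarith
  refine ⟨sp U (fun i => β / (l - g i)), posDef_sp U fun i => div_pos hβ (hpos i), ?_, l, ?_⟩
  · rw [trace_sp]
    have : ∑ i, β / (l - g i) = 1 := hFl
    rw [this]
    simp
  · rw [← sp_const U, sp_sub, sp_mul, ← sp_const U]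
    congr 1
    funext i
    exact mul_div_cancel₀ _ (hpos i).ne'

namespace IsLeader

variable {β : ℝ} {G W : Mat d}

theorem rtr_eq_one (h : IsLeader β G W) : rtr W = 1 := by
  rw [rtr, h.2.1]; simp

theorem mul_inv (h : IsLeader β G W) : W * W⁻¹ = 1 :=
  Matrix.mul_nonsing_inv _ ((Matrix.isUnit_iff_isUnit_det _).1 h.1.isUnit)

theorem inv_eq (h : IsLeader β G W) : ∃ l : ℝ, l • (1 : Mat d) - G = β • W⁻¹ := by
  obtain ⟨hW, -, l, hl⟩ := h
  have h1 : W * W⁻¹ = 1 := Matrix.mul_nonsing_inv _ ((Matrix.isUnit_iff_isUnit_det _).1 hW.isUnit)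
  refine ⟨l, ?_⟩
  calc l • (1 : Mat d) - G = (l • (1 : Mat d) - G) * (W * W⁻¹) := by rw [h1, Matrix.mul_one]
    _ = β • W⁻¹ := by rw [← Matrix.mul_assoc, hl]; simp

/-- The value of the regularised problem at the leader. -/
theorem rtr_inv_mul (_h : IsLeader β G W) {l : ℝ} (hl : l • (1 : Mat d) - G = β • W⁻¹)
    (u : Mat d) (hu : rtr u = 1) : β * rtr (W⁻¹ * u) = l - rtr (G * u) := by
  have h1 : rtr ((l • (1 : Mat d) - G) * u) = β * rtr (W⁻¹ * u) := by
    rw [hl, Matrix.smul_mul, rtr_smul]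
  rw [← h1, Matrix.sub_mul, rtr_sub, Matrix.smul_mul, rtr_smul, Matrix.one_mul, hu, mul_one]

theorem value (h : IsLeader β G W) {l : ℝ} (hl : l • (1 : Mat d) - G = β • W⁻¹) :
    rtr (G * W) = l - β * d := by
  have h1 := h.rtr_inv_mul hl W h.rtr_eq_one
  have h2 : W⁻¹ * W = 1 := Matrix.nonsing_inv_mul _ ((Matrix.isUnit_iff_isUnit_det _).1 h.1.isUnit)
  rw [h2, rtr_one] at h1
  linarith

/-- The leader is optimal. -/
theorem optimal (h : IsLeader β G W) (hβ : 0 < β) {u : Mat d} (hu : u.PosDef) (hu1 : rtr u = 1) :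
    rtr (G * u) + β * ldet u ≤ rtr (G * W) + β * ldet W := by
  obtain ⟨l, hl⟩ := h.inv_eq
  have h1 := h.rtr_inv_mul hl u hu1
  have h2 := h.value hl
  have h3 := key h.1.inv hu
  rw [ldet_inv h.1] at h3
  have h4 := mul_le_mul_of_nonneg_left h3 hβ.le
  nlinarith

/-- The value of the regularised problem without gains. -/
theorem value_zero (h : IsLeader β (0 : Mat d) W) (hβ : 0 < β) [NeZero d] :
    rtr ((0 : Mat d) * W) + β * ldet W ≤ - (β * (d * Real.log d)) := by
  have hd : (0 : ℝ) < d := by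
    have : 0 < d := Nat.pos_of_ne_zero (NeZero.ne d)
    exact_mod_cast this
  have h1 : ((d : ℝ) • (1 : Mat d)).PosDef := by
    rw [← sp_const (1 : unitaryGroup (Fin d) ℂ)]
    exact posDef_sp _ fun _ => hd
  have h2 : ldet ((d : ℝ) • (1 : Mat d)) = d * Real.log d := by
    rw [← sp_const (1 : unitaryGroup (Fin d) ℂ), ldet_sp _ fun _ => hd]
    simp
  have h3 := key h1 h.1
  rw [h2, Matrix.smul_mul, rtr_smul, Matrix.one_mul, h.rtr_eq_one] at h3
  rw [Matrix.zero_mul, rtr_zero]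
  nlinarith

/-- Changing the regularisation parameter. -/
theorem change {β' : ℝ} {W' : Mat d} (h : IsLeader β G W) (h' : IsLeader β' G W') (hβ : 0 < β) :
    rtr (G * W') + β' * ldet W' ≤ rtr (G * W) + β * ldet W + (β' - β) * ldet W' := by
  have := h.optimal hβ h'.1 h'.rtr_eq_one
  linarith

/-- The stability inequality for one update `E` of the gain matrix. -/
theorem update {A E W' : Mat d} (h : IsLeader β G W) (h' : IsLeader β (G + E) W') (hβ : 0 < β)
    (hA : IsUnit A) (hAW : A * Aᴴ = W) (hE : E.IsHermitian)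
    (hsmall : rtr ((Aᴴ * E * A) * (Aᴴ * E * A)) ≤ β ^ 2 / 4) :
    rtr ((G + E) * W') + β * ldet W' ≤ rtr (G * W) + β * ldet W + rtr (E * W) +
      rtr ((Aᴴ * E * A) * (Aᴴ * E * A)) / β := by
  obtain ⟨l, hl⟩ := h.inv_eq
  set X : Mat d := β⁻¹ • (Aᴴ * E * A) with hX
  have hXH : X.IsHermitian := by
    have : (Aᴴ * E * A).IsHermitian := Matrix.isHermitian_conjTranspose_mul_mul A hE
    rw [Matrix.IsHermitian, hX, Matrix.conjTranspose_smul, this.eq]
    simp
  have hXX : rtr (X * X) = rtr ((Aᴴ * E * A) * (Aᴴ * E * A)) / β ^ 2 := by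
    rw [hX, Matrix.smul_mul, Matrix.mul_smul, rtr_smul, rtr_smul]
    field_simp
  have hX4 : rtr (X * X) ≤ 1 / 4 := by
    rw [hXX, div_le_iff₀ (by positivity)]
    linarith
  obtain ⟨hpos, hlog⟩ := ldet_one_sub hXH hX4
  -- the matrix `M`
  set M : Mat d := W⁻¹ - β⁻¹ • E with hM
  have hAdet : IsUnit A.det := (Matrix.isUnit_iff_isUnit_det _).1 hA
  have hAinv : Aᴴ * W⁻¹ * A = 1 := by
    have h1 : W⁻¹ = (A⁻¹)ᴴ * A⁻¹ := by
      rw [← hAW, Matrix.mul_inv_rev, Matrix.conjTranspose_nonsing_inv]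
    rw [h1, ← Matrix.mul_assoc, ← Matrix.conjTranspose_mul, Matrix.nonsing_inv_mul _ hAdet,
      Matrix.conjTranspose_one, Matrix.one_mul, Matrix.nonsing_inv_mul _ hAdet]
  have hAM : Aᴴ * M * A = 1 - X := by
    rw [hM, Matrix.mul_sub, Matrix.sub_mul, hAinv, hX, Matrix.mul_smul, Matrix.smul_mul]
  have hMpos : M.PosDef := by
    rw [← hAM] at hpos
    exact (Matrix.IsUnit.posDef_star_left_conjugate_iff hA).1 hpos
  have hMdet : ldet M = ldet (1 - X) - ldet W := by
    have := ldet_conj hMpos hA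
    rw [hAM, hAW] at this
    linarith
  have h1 := key hMpos h'.1
  have h2 : β * rtr (M * W') = l - rtr ((G + E) * W') := by
    have h3 := h.rtr_inv_mul hl W' h'.rtr_eq_one
    rw [hM, Matrix.sub_mul, rtr_sub, Matrix.smul_mul, rtr_smul, mul_sub, h3, Matrix.add_mul,
      rtr_add]
    field_simp
    ring
  have h4 := h.value hl
  have h5 : β * rtr X = rtr (E * W) := by
    rw [hX, rtr_smul, ← mul_assoc, mul_inv_cancel₀ hβ.ne', one_mul, ← hAW, rtr, rtr,
      Matrix.mul_assoc, Matrix.trace_mul_comm, Matrix.mul_assoc]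
  have h6 : β * rtr (X * X) = rtr ((Aᴴ * E * A) * (Aᴴ * E * A)) / β := by
    rw [hXX]
    field_simp
  have h7 := mul_le_mul_of_nonneg_left h1 hβ.le
  have h8 := mul_le_mul_of_nonneg_left hlog hβ.le
  rw [hMdet] at h7
  have h9 : β * (d + (ldet (1 - X) - ldet W) + ldet W') =
    β * d + β * ldet (1 - X) - β * ldet W + β * ldet W' := by ring
  have h10 : β * (-rtr X - rtr (X * X)) = - rtr (E * W) -
      rtr ((Aᴴ * E * A) * (Aᴴ * E * A)) / β := by
    rw [mul_sub, mul_neg, h5, h6]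
  linarith

end IsLeader

end Pool.Agent.Lib.MP_e1539f_lc
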