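import Mathlib

/-!
# Linear algebra for the log-determinant barrier

Traces and determinants of complex positive definite matrices, and the regularised leader
`W = argmax Tr(G W) + β log det W` over density matrices.
-/

namespace Pool.Agent.Lib.MP_e1539f_lc

open Matrix
open scoped ComplexOrder

/-- Complex `d × d` matrices. -/
abbrev Mat (d : ℕ) := Matrix (Fin d) (Fin d) ℂ

variable {d : ℕ}

/-- `log det`, real valued. -/
noncomputable def ldet (W : Mat d) : ℝ := Real.log W.det.re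

/-- The real part of the trace. -/
noncomputable def rtr (X : Mat d) : ℝ := X.trace.re

theorem rtr_add (X Y : Mat d) : rtr (X + Y) = rtr X + rtr Y := by simp [rtr]

theorem rtr_sub (X Y : Mat d) : rtr (X - Y) = rtr X - rtr Y := by simp [rtr]

theorem rtr_smul (c : ℝ) (X : Mat d) : rtr (c • X) = c * rtr X := by simp [rtr]

theorem rtr_zero : rtr (0 : Mat d) = 0 := by simp [rtr]

theorem rtr_one : rtr (1 : Mat d) = d := by simp [rtr]

theorem rtr_mul_comm (X Y : Mat d) : rtr (X * Y) = rtr (Y * X) := by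
  simp [rtr, Matrix.trace_mul_comm X Y]

theorem rtr_sum {ι : Type*} (s : Finset ι) (f : ι → Mat d) :
    rtr (∑ i ∈ s, f i) = ∑ i ∈ s, rtr (f i) := by
  simp [rtr, Matrix.trace_sum]

/-! ### Matrices diagonal in a fixed orthonormal basis -/

/-- `U diag(f) U*`. -/
noncomputable def sp (U : unitaryGroup (Fin d) ℂ) (f : Fin d → ℝ) : Mat d :=
  (U : Mat d) * diagonal (fun i => (f i : ℂ)) * star (U : Mat d)

theorem sp_mul (U : unitaryGroup (Fin d) ℂ) (f g : Fin d → ℝ) :
    sp U f * sp U g = sp U (fun i => f i * g i) := by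
  have h : star (U : Mat d) * (U : Mat d) = 1 := Unitary.coe_star_mul_self U
  calc sp U f * sp U g = (U : Mat d) * diagonal (fun i => (f i : ℂ)) *
        (star (U : Mat d) * (U : Mat d)) * diagonal (fun i => (g i : ℂ)) * star (U : Mat d) := by
        simp only [sp, Matrix.mul_assoc]
    _ = _ := by
        rw [h, Matrix.mul_one, sp, Matrix.mul_assoc (U : Mat d) (diagonal _) (diagonal _),
          Matrix.diagonal_mul_diagonal]
        simp

theorem sp_one (U : unitaryGroup (Fin d) ℂ) : sp U (fun _ => 1) = 1 := by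
  have h : (U : Mat d) * star (U : Mat d) = 1 := Unitary.coe_mul_star_self U
  simp [sp, h]

theorem sp_add (U : unitaryGroup (Fin d) ℂ) (f g : Fin d → ℝ) :
    sp U f + sp U g = sp U (fun i => f i + g i) := by
  rw [sp, sp, sp, ← Matrix.add_mul, ← Matrix.mul_add, Matrix.diagonal_add]
  simp

theorem sp_sub (U : unitaryGroup (Fin d) ℂ) (f g : Fin d → ℝ) :
    sp U f - sp U g = sp U (fun i => f i - g i) := by
  rw [sp, sp, sp, ← Matrix.sub_mul, ← Matrix.mul_sub, Matrix.diagonal_sub]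
  simp

theorem smul_sp (U : unitaryGroup (Fin d) ℂ) (c : ℝ) (f : Fin d → ℝ) :
    c • sp U f = sp U (fun i => c * f i) := by
  have : diagonal (fun i => ((c * f i : ℝ) : ℂ)) = c • diagonal (fun i => (f i : ℂ)) := by
    rw [← Matrix.diagonal_smul]
    congr 1
    funext i
    simp
  rw [sp, sp, this, Matrix.mul_smul, Matrix.smul_mul]

theorem sp_const (U : unitaryGroup (Fin d) ℂ) (c : ℝ) : sp U (fun _ => c) = c • (1 : Mat d) := by
  rw [← sp_one U, smul_sp]
  simp

theorem rtr_sp (U : unitaryGroup (Fin d) ℂ) (f : Fin d → ℝ) : rtr (sp U f) = ∑ i, f i := by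
  have h : star (U : Mat d) * (U : Mat d) = 1 := Unitary.coe_star_mul_self U
  rw [rtr, sp, Matrix.trace_mul_comm, ← Matrix.mul_assoc, h, Matrix.one_mul, Matrix.trace_diagonal]
  simp

theorem trace_sp (U : unitaryGroup (Fin d) ℂ) (f : Fin d → ℝ) :
    (sp U f).trace = ((∑ i, f i : ℝ) : ℂ) := by
  have h : star (U : Mat d) * (U : Mat d) = 1 := Unitary.coe_star_mul_self U
  rw [sp, Matrix.trace_mul_comm, ← Matrix.mul_assoc, h, Matrix.one_mul, Matrix.trace_diagonal]
  simp

theorem det_sp (U : unitaryGroup (Fin d) ℂ) (f : Fin d → ℝ) :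
    (sp U f).det = ((∏ i, f i : ℝ) : ℂ) := by
  have h : star (U : Mat d) * (U : Mat d) = 1 := Unitary.coe_star_mul_self U
  rw [sp, Matrix.det_mul, mul_comm, ← Matrix.det_mul, ← Matrix.mul_assoc, h, Matrix.one_mul,
    Matrix.det_diagonal]
  simp

theorem ldet_sp (U : unitaryGroup (Fin d) ℂ) {f : Fin d → ℝ} (hf : ∀ i, 0 < f i) :
    ldet (sp U f) = ∑ i, Real.log (f i) := by
  rw [ldet, det_sp, Complex.ofReal_re, Real.log_prod (fun i _ => (hf i).ne')]

theorem posSemidef_sp (U : unitaryGroup (Fin d) ℂ) {f : Fin d → ℝ} (hf : ∀ i, 0 ≤ f i) :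
    (sp U f).PosSemidef := by
  have h1 : (diagonal (fun i => (f i : ℂ)) : Mat d).PosSemidef :=
    Matrix.posSemidef_diagonal_iff.2 fun i => by exact_mod_cast hf i
  exact h1.mul_mul_conjTranspose_same (U : Mat d)

theorem isUnit_unitary (U : unitaryGroup (Fin d) ℂ) : IsUnit (U : Mat d) :=
  ⟨⟨(U : Mat d), star (U : Mat d), Unitary.coe_mul_star_self U, Unitary.coe_star_mul_self U⟩, rfl⟩

theorem posDef_sp (U : unitaryGroup (Fin d) ℂ) {f : Fin d → ℝ} (hf : ∀ i, 0 < f i) :
    (sp U f).PosDef := by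
  have h1 : (diagonal (fun i => (f i : ℂ)) : Mat d).PosDef :=
    Matrix.posDef_diagonal_iff.2 fun i => by exact_mod_cast hf i
  exact (Matrix.IsUnit.posDef_star_right_conjugate_iff (isUnit_unitary U)).2 h1

theorem isHermitian_sp (U : unitaryGroup (Fin d) ℂ) (f : Fin d → ℝ) : (sp U f).IsHermitian := by
  have h1 : (diagonal (fun i => (f i : ℂ)) : Mat d).IsHermitian := by
    rw [Matrix.IsHermitian, Matrix.diagonal_conjTranspose]
    congr 1
    funext i
    simp
  exact Matrix.isHermitian_mul_mul_conjTranspose (U : Mat d) h1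

/-- The spectral theorem. -/
theorem exists_sp {H : Mat d} (hH : H.IsHermitian) :
    ∃ (U : unitaryGroup (Fin d) ℂ) (f : Fin d → ℝ), H = sp U f :=
  ⟨hH.eigenvectorUnitary, hH.eigenvalues, hH.spectral_theorem⟩

theorem exists_sp_pos {H : Mat d} (hH : H.PosDef) :
    ∃ (U : unitaryGroup (Fin d) ℂ) (f : Fin d → ℝ), (∀ i, 0 < f i) ∧ H = sp U f :=
  ⟨hH.1.eigenvectorUnitary, hH.1.eigenvalues, hH.eigenvalues_pos, hH.1.spectral_theorem⟩

/-! ### Determinants and traces of positive definite matrices -/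

theorem exists_factor {W : Mat d} (hW : W.PosDef) : ∃ A : Mat d, IsUnit A ∧ A * Aᴴ = W := by
  obtain ⟨U, f, hf, rfl⟩ := exists_sp_pos hW
  refine ⟨(U : Mat d) * diagonal (fun i => ((Real.sqrt (f i) : ℝ) : ℂ)), ?_, ?_⟩
  · refine (isUnit_unitary U).mul ?_
    rw [Matrix.isUnit_iff_isUnit_det, Matrix.det_diagonal, isUnit_iff_ne_zero,
      Finset.prod_ne_zero_iff]
    intro i _
    exact_mod_cast (Real.sqrt_pos.2 (hf i)).ne'
  · rw [Matrix.conjTranspose_mul, Matrix.diagonal_conjTranspose, sp, ← Matrix.mul_assoc,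
      Matrix.mul_assoc (U : Mat d), Matrix.diagonal_mul_diagonal]
    congr 2
    congr 1
    funext i
    simp only [Pi.star_apply, RCLike.star_def, Complex.conj_ofReal]
    rw [← Complex.ofReal_mul, Real.mul_self_sqrt (hf i).le]

theorem det_re_pos {W : Mat d} (hW : W.PosDef) : 0 < W.det.re :=
  (RCLike.pos_iff.mp hW.det_pos).1

theorem det_im {W : Mat d} (hW : W.PosDef) : W.det.im = 0 :=
  (RCLike.pos_iff.mp hW.det_pos).2

theorem add_ldet_le_rtr {X : Mat d} (hX : X.PosDef) : d + ldet X ≤ rtr X := by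
  obtain ⟨U, f, hf, rfl⟩ := exists_sp_pos hX
  rw [ldet_sp U hf, rtr_sp]
  have : (d : ℝ) = ∑ _i : Fin d, (1 : ℝ) := by simp
  rw [this, ← Finset.sum_add_distrib]
  refine Finset.sum_le_sum fun i _ => ?_
  have := Real.log_le_sub_one_of_pos (hf i)
  linarith

theorem ldet_conj {M A : Mat d} (hM : M.PosDef) (hA : IsUnit A) :
    ldet (Aᴴ * M * A) = ldet M + ldet (A * Aᴴ) := by
  have hW : (A * Aᴴ).PosDef := by
    have := (Matrix.IsUnit.posDef_star_right_conjugate_iff (x := (1 : Mat d)) hA).2 Matrix.PosDef.one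
    rwa [Matrix.mul_one] at this
  have h : (Aᴴ * M * A).det = M.det * (A * Aᴴ).det := by
    rw [Matrix.det_mul, Matrix.det_mul, Matrix.det_mul]
    ring
  rw [ldet, ldet, ldet, h, Complex.mul_re, det_im hM, zero_mul, sub_zero,
    Real.log_mul (det_re_pos hM).ne' (det_re_pos hW).ne']

theorem posDef_conj {M A : Mat d} (hM : M.PosDef) (hA : IsUnit A) : (Aᴴ * M * A).PosDef :=
  (Matrix.IsUnit.posDef_star_left_conjugate_iff hA).2 hM

/-- The basic inequality: `d + log det M + log det W ≤ Tr (M W)`. -/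
theorem key {M W : Mat d} (hM : M.PosDef) (hW : W.PosDef) :
    d + ldet M + ldet W ≤ rtr (M * W) := by
  obtain ⟨A, hA, rfl⟩ := exists_factor hW
  have h1 := add_ldet_le_rtr (posDef_conj hM hA)
  rw [ldet_conj hM hA] at h1
  have h2 : rtr (Aᴴ * M * A) = rtr (M * (A * Aᴴ)) := by
    rw [rtr, rtr, Matrix.mul_assoc, Matrix.trace_mul_comm, Matrix.mul_assoc]
  linarith

theorem ldet_inv {W : Mat d} (hW : W.PosDef) : ldet W⁻¹ = - ldet W := by
  obtain ⟨U, f, hf, rfl⟩ := exists_sp_pos hW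
  have h : (sp U f)⁻¹ = sp U (fun i => (f i)⁻¹) := by
    apply Matrix.inv_eq_right_inv
    rw [sp_mul, ← sp_one U]
    congr 1
    funext i
    exact mul_inv_cancel₀ (hf i).ne'
  rw [h, ldet_sp U hf, ldet_sp U (fun i => inv_pos.2 (hf i)), ← Finset.sum_neg_distrib]
  exact Finset.sum_congr rfl fun i _ => Real.log_inv _

theorem rtr_mul_nonneg {A B : Mat d} (hA : A.PosSemidef) (hB : B.PosSemidef) :
    0 ≤ rtr (A * B) := by
  obtain ⟨U, f, rfl⟩ := exists_sp hB.1
  have hf : ∀ i, 0 ≤ f i := by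
    have := hB
    intro i
    have h2 : (diagonal (fun i => (f i : ℂ)) : Mat d).PosSemidef := by
      have h3 := hB.conjTranspose_mul_mul_same (U : Mat d)
      have h : star (U : Mat d) * (U : Mat d) = 1 := Unitary.coe_star_mul_self U
      have h4 : (U : Mat d)ᴴ * sp U f * (U : Mat d) = diagonal (fun i => (f i : ℂ)) := by
        calc (U : Mat d)ᴴ * sp U f * (U : Mat d) =
            (star (U : Mat d) * (U : Mat d)) * diagonal (fun i => (f i : ℂ)) *
              (star (U : Mat d) * (U : Mat d)) := by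
              simp only [sp, Matrix.mul_assoc]; rfl
          _ = _ := by rw [h]; simp
      rwa [h4] at h3
    have := (Matrix.posSemidef_diagonal_iff.1 h2) i
    exact_mod_cast this
  have h1 : sp U f = sp U (fun i => Real.sqrt (f i)) * sp U (fun i => Real.sqrt (f i)) := by
    rw [sp_mul]
    congr 1
    funext i
    exact (Real.mul_self_sqrt (hf i)).symm
  set S := sp U (fun i => Real.sqrt (f i)) with hS
  have hSH : Sᴴ = S := isHermitian_sp U _
  have h2 : rtr (A * sp U f) = rtr (Sᴴ * A * S) := by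
    rw [h1, hSH, rtr, rtr, ← Matrix.mul_assoc, Matrix.trace_mul_comm, Matrix.mul_assoc]
  rw [h2]
  exact (RCLike.nonneg_iff.mp (hA.conjTranspose_mul_mul_same S).trace_nonneg).1

theorem log_one_sub_ge {x : ℝ} (h1 : -(1 / 2) ≤ x) (h2 : x ≤ 1 / 2) :
    -x - x * x ≤ Real.log (1 - x) := by
  have hpos : 0 < 1 - x := by linarith
  have h6 : (1 - x)⁻¹ ≤ Real.exp (x + x * x) := by
    rw [inv_le_iff_one_le_mul₀ hpos]
    rcases le_or_gt 0 x with hx | hx
    · have h7 : 1 + (x + x * x) + (x + x * x) ^ 2 / 2 ≤ Real.exp (x + x * x) :=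
        Real.quadratic_le_exp_of_nonneg (by nlinarith)
      have h8 : 1 ≤ (1 + (x + x * x) + (x + x * x) ^ 2 / 2) * (1 - x) := by
        have : (1 + (x + x * x) + (x + x * x) ^ 2 / 2) * (1 - x) =
          1 + x ^ 2 * ((1 - x - x ^ 2 - x ^ 3) / 2) := by ring
        have h9 : 0 ≤ 1 - x - x ^ 2 - x ^ 3 := by nlinarith [mul_nonneg hx hx]
        nlinarith [mul_nonneg (sq_nonneg x) h9]
      exact h8.trans (mul_le_mul_of_nonneg_right h7 hpos.le)
    · have h7 : 1 + (x + x * x) ≤ Real.exp (x + x * x) := by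
        have := Real.add_one_le_exp (x + x * x)
        linarith
      have h8 : 1 ≤ (1 + (x + x * x)) * (1 - x) := by
        have : (1 + (x + x * x)) * (1 - x) = 1 - x ^ 3 := by ring
        rw [this]
        have : x ^ 3 ≤ 0 := by
          have := mul_nonneg (sq_nonneg x) (neg_nonneg.2 hx.le)
          nlinarith
        linarith
      exact h8.trans (mul_le_mul_of_nonneg_right h7 hpos.le)
  have h4 : Real.log (1 - x)⁻¹ ≤ x + x * x :=
    calc Real.log (1 - x)⁻¹ ≤ Real.log (Real.exp (x + x * x)) :=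
          Real.log_le_log (inv_pos.2 hpos) h6
      _ = x + x * x := Real.log_exp _
  rw [Real.log_inv] at h4
  linarith

/-- For a small Hermitian matrix `X`, `log det (1 - X) ≥ - Tr X - Tr X²`. -/
theorem ldet_one_sub {X : Mat d} (hX : X.IsHermitian) (h : rtr (X * X) ≤ 1 / 4) :
    (1 - X).PosDef ∧ - rtr X - rtr (X * X) ≤ ldet (1 - X) := by
  obtain ⟨U, f, rfl⟩ := exists_sp hX
  rw [sp_mul, rtr_sp] at h
  have hf : ∀ i, |f i| ≤ 1 / 2 := by
    intro i
    have h1 : f i * f i ≤ 1 / 4 :=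
      (Finset.single_le_sum (f := fun i => f i * f i) (fun i _ => mul_self_nonneg (f i))
        (Finset.mem_univ i)).trans h
    exact abs_le_of_sq_le_sq (by nlinarith) (by norm_num)
  have hf1 : ∀ i, 0 < 1 - f i := fun i => by have := (abs_le.1 (hf i)).2; linarith
  have h1 : 1 - sp U f = sp U (fun i => 1 - f i) := by rw [← sp_one U, sp_sub]
  rw [h1, sp_mul, rtr_sp, rtr_sp, ldet_sp U hf1]
  refine ⟨posDef_sp U hf1, ?_⟩
  rw [← Finset.sum_neg_distrib, ← Finset.sum_sub_distrib]
  refine Finset.sum_le_sum fun i _ => ?_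
  obtain ⟨h2, h3⟩ := abs_le.1 (hf i)
  have := log_one_sub_ge h2 h3
  linarith

end Pool.Agent.Lib.MP_e1539f_lc
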