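import Pool.Agent.Lib.MP_e1539f_lc.Defs
import Pool.Agent.Lib.MP_e1539f_lc.LinAlg

/-!
# Born's rule and policies with finitely many reachable histories
-/

namespace Pool.Agent.Lib.MP_e1539f_lc

open MeasureTheory ProbabilityTheory Matrix
open scoped ComplexOrder

variable {d : ℕ}

theorem Action.posSemidef (P : Action d) : P.1.PosSemidef := by
  have h : P.1 = P.1ᴴ * P.1 := by rw [P.2.1.eq, P.2.2.1]
  rw [h]
  exact posSemidef_conjTranspose_mul_self _

theorem Action.posSemidef_one_sub (P : Action d) : (1 - P.1).PosSemidef := by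
  have h : 1 - P.1 = (1 - P.1)ᴴ * (1 - P.1) := by
    rw [conjTranspose_sub, conjTranspose_one, P.2.1.eq, Matrix.sub_mul, Matrix.one_mul,
      Matrix.mul_sub, P.2.2.1]
    simp
  rw [h]
  exact posSemidef_conjTranspose_mul_self _

theorem Action.trace_eq_one (P : Action d) : P.1.trace = 1 := by
  obtain ⟨P, hH, hP, hr⟩ := P
  show P.trace = 1
  have h1 : P = sp hH.eigenvectorUnitary hH.eigenvalues := hH.spectral_theorem
  have h2 : ∀ i, hH.eigenvalues i * hH.eigenvalues i = hH.eigenvalues i := by
    have h3 : sp hH.eigenvectorUnitary (fun i => hH.eigenvalues i * hH.eigenvalues i) =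
        sp hH.eigenvectorUnitary hH.eigenvalues := by
      rw [← sp_mul, ← h1, hP]
    have h := Unitary.coe_star_mul_self hH.eigenvectorUnitary
    have h4 : ∀ f : Fin d → ℝ, star (hH.eigenvectorUnitary : Mat d) *
        sp hH.eigenvectorUnitary f * (hH.eigenvectorUnitary : Mat d) =
        diagonal (fun i => (f i : ℂ)) := by
      intro f
      calc star (hH.eigenvectorUnitary : Mat d) * sp hH.eigenvectorUnitary f *
            (hH.eigenvectorUnitary : Mat d) =
          (star (hH.eigenvectorUnitary : Mat d) * (hH.eigenvectorUnitary : Mat d)) *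
            diagonal (fun i => (f i : ℂ)) *
            (star (hH.eigenvectorUnitary : Mat d) * (hH.eigenvectorUnitary : Mat d)) := by
            simp only [sp, Matrix.mul_assoc]
        _ = _ := by rw [h]; simp
    have h5 := h4 (fun i => hH.eigenvalues i * hH.eigenvalues i)
    rw [h3, h4 hH.eigenvalues] at h5
    intro i
    have h6 := congrFun (Matrix.diagonal_injective h5) i
    exact_mod_cast h6.symm
  have h3 : ∀ i, hH.eigenvalues i = if hH.eigenvalues i ≠ 0 then 1 else 0 := by
    intro i
    have := h2 i
    by_cases h0 : hH.eigenvalues i = 0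
    · simp [h0]
    · simp only [ne_eq, h0, not_false_eq_true, if_true]
      exact mul_right_cancel₀ h0 (by rw [this, one_mul])
  rw [hH.trace_eq_sum_eigenvalues]
  have h4 : ∑ i, hH.eigenvalues i = 1 := by
    rw [Finset.sum_congr rfl fun i _ => h3 i, Finset.sum_boole]
    rw [hH.rank_eq_card_non_zero_eigs, Fintype.card_subtype] at hr
    rw [hr]
    simp
  have h5 : ∑ i, ((hH.eigenvalues i : ℝ) : ℂ) = ((∑ i, hH.eigenvalues i : ℝ) : ℂ) := by
    push_cast; rfl
  exact h5.trans (by rw [h4]; simp)

theorem Action.rtr_eq_one (P : Action d) : rtr P.1 = 1 := by rw [rtr, P.trace_eq_one]; simp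

theorem State.rtr_eq_one (ρ : State d) : rtr ρ.1 = 1 := by rw [rtr, ρ.2.2]; simp

theorem born_eq (ρ : State d) (P : Action d) : born ρ P = rtr (ρ.1 * P.1) := rfl

theorem born_nonneg (ρ : State d) (P : Action d) : 0 ≤ born ρ P :=
  rtr_mul_nonneg ρ.2.1 P.posSemidef

theorem born_le_one (ρ : State d) (P : Action d) : born ρ P ≤ 1 := by
  have h := rtr_mul_nonneg ρ.2.1 P.posSemidef_one_sub
  rw [Matrix.mul_sub, Matrix.mul_one, rtr_sub, ρ.rtr_eq_one, ← born_eq] at h
  linarith

theorem reward_apply (ρ : State d) (P : Action d) :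
    reward ρ P = ENNReal.ofReal (born ρ P) • Measure.dirac true +
      ENNReal.ofReal (1 - born ρ P) • Measure.dirac false := rfl

instance (ρ : State d) : IsMarkovKernel (reward ρ) := by
  refine ⟨fun P => ⟨?_⟩⟩
  rw [reward_apply]
  simp only [Measure.coe_add, Measure.coe_smul, Pi.add_apply, Pi.smul_apply, smul_eq_mul,
    measure_univ, mul_one]
  rw [← ENNReal.ofReal_add (born_nonneg ρ P) (by have := born_le_one ρ P; linarith)]
  simp

instance (π : Policy d) (t : ℕ) : IsMarkovKernel (π.choose t) := π.markov t

instance (ρ : State d) (π : Policy d) (t : ℕ) : IsMarkovKernel (step ρ π t) := by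
  unfold step
  infer_instance

instance (ρ : State d) (π : Policy d) (t : ℕ) : IsProbabilityMeasure (law ρ π t) := by
  induction t with
  | zero => exact Measure.dirac.isProbabilityMeasure
  | succ t ih =>
    show IsProbabilityMeasure ((law ρ π t) ⊗ₘ (step ρ π t))
    infer_instance

instance : MeasurableSingletonClass (Action d) := by
  have : T1Space (Action d) := by
    unfold Action
    infer_instance
  infer_instance

instance : ∀ t, MeasurableSingletonClass (History d t)
  | 0 => inferInstanceAs (MeasurableSingletonClass Unit)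
  | t + 1 => by
    have : MeasurableSingletonClass (History d t) :=
      instMeasurableSingletonClassHistory t
    exact inferInstanceAs (MeasurableSingletonClass (History d t × (Action d × Bool)))

/-! ### Strategies with finitely many choices at every history -/

/-- At every history, a finitely supported law on actions. -/
structure Strategy (d : ℕ) (K : Type) [Fintype K] where
  p : ∀ t, History d t → K → ℝ
  a : ∀ t, History d t → K → Action d
  p_nonneg : ∀ t h k, 0 ≤ p t h k
  p_sum : ∀ t h, ∑ k, p t h k = 1

namespace Strategy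

variable {K : Type} [Fintype K] (S : Strategy d K)

/-- The reachable histories. -/
def reach : ∀ t, Set (History d t)
  | 0 => Set.univ
  | t + 1 => {x | x.1 ∈ reach t ∧ ∃ k, x.2.1 = S.a t x.1 k}

theorem finite_reach (t : ℕ) : (S.reach t).Finite := by
  induction t with
  | zero => exact Set.finite_univ (α := Unit)
  | succ t ih =>
    have h1 : ((S.reach t) ×ˢ (Set.univ : Set (K × Bool))).Finite :=
      ih.prod Set.finite_univ
    refine (h1.image fun x => ((x.1, (S.a t x.1 x.2.1, x.2.2)) : History d (t + 1))).subset ?_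
    rintro ⟨h, P, b⟩ ⟨h2, k, hk⟩
    exact ⟨(h, (k, b)), ⟨h2, trivial⟩, by simp only at hk ⊢; rw [hk]⟩

/-- The law of the next action at a reachable history. -/
noncomputable def mix (t : ℕ) (h : History d t) : Measure (Action d) :=
  ∑ k, ENNReal.ofReal (S.p t h k) • Measure.dirac (S.a t h k)

theorem mix_univ (t : ℕ) (h : History d t) : S.mix t h Set.univ = 1 := by
  simp only [mix, Measure.coe_finsetSum, Finset.sum_apply, Measure.coe_smul, Pi.smul_apply,
    smul_eq_mul, measure_univ, mul_one]
  rw [← ENNReal.ofReal_sum_of_nonneg fun k _ => S.p_nonneg t h k, S.p_sum]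
  simp

open Classical in
/-- The policy which follows the strategy on the reachable histories. -/
noncomputable def policy (a₀ : Action d) : Policy d where
  choose t :=
    { toFun := fun h => if h ∈ S.reach t then S.mix t h else Measure.dirac a₀
      measurable' := by
        intro B hB
        have : (fun h => if h ∈ S.reach t then S.mix t h else Measure.dirac a₀) ⁻¹' B =
            (S.reach t ∩ (S.mix t) ⁻¹' B) ∪ ((S.reach t)ᶜ ∩ {_h | Measure.dirac a₀ ∈ B}) := by
          ext h
          by_cases hh : h ∈ S.reach t <;> simp [hh]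
        rw [this]
        refine MeasurableSet.union ?_ ?_
        · exact ((S.finite_reach t).subset Set.inter_subset_left).measurableSet
        · exact (S.finite_reach t).measurableSet.compl.inter (MeasurableSet.const _) }
  markov t := by
    refine ⟨fun h => ⟨?_⟩⟩
    show (if h ∈ S.reach t then S.mix t h else Measure.dirac a₀) Set.univ = 1
    split
    · exact S.mix_univ t h
    · simp

theorem policy_apply (a₀ : Action d) {t : ℕ} {h : History d t} (hh : h ∈ S.reach t) :
    (S.policy a₀).choose t h = S.mix t h := if_pos hh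

/-- The expectation of a function of the history, as a finite sum. -/
noncomputable def ex (ρ : State d) : ∀ t, (History d t → ℝ) → ℝ
  | 0, F => F ()
  | t + 1, F => ex ρ t fun h => ∑ k, S.p t h k *
      (born ρ (S.a t h k) * F (h, (S.a t h k, true)) +
        (1 - born ρ (S.a t h k)) * F (h, (S.a t h k, false)))

variable (ρ : State d) (a₀ : Action d)

theorem step_compl {t : ℕ} {h : History d t} (hh : h ∈ S.reach t) :
    step ρ (S.policy a₀) t h {y | (h, y) ∈ (S.reach (t + 1))ᶜ} = 0 := by
  have hm : MeasurableSet {y : Action d × Bool | (h, y) ∈ (S.reach (t + 1))ᶜ} := by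
    have h1 : MeasurableSet (S.reach (t + 1))ᶜ := (S.finite_reach (t + 1)).measurableSet.compl
    exact measurable_prodMk_left h1
  rw [step, Kernel.compProd_apply hm, S.policy_apply a₀ hh, mix, lintegral_finsetSum_measure]
  refine Finset.sum_eq_zero fun k _ => ?_
  rw [lintegral_smul_measure, lintegral_dirac]
  have : Prod.mk (S.a t h k) ⁻¹' {y : Action d × Bool | (h, y) ∈ (S.reach (t + 1))ᶜ} = ∅ := by
    ext b
    simp only [Set.mem_empty_iff_false, iff_false]
    intro hb
    exact hb ⟨hh, k, rfl⟩
  rw [this]
  simp

theorem law_compl (t : ℕ) : law ρ (S.policy a₀) t (S.reach t)ᶜ = 0 := by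
  induction t with
  | zero =>
    have : (S.reach 0)ᶜ = ∅ := Set.compl_univ
    rw [this]
    simp
  | succ t ih =>
    show ((law ρ (S.policy a₀) t) ⊗ₘ (step ρ (S.policy a₀) t)) _ = 0
    have h1 : MeasurableSet (S.reach (t + 1))ᶜ := (S.finite_reach (t + 1)).measurableSet.compl
    rw [Measure.compProd_apply h1, lintegral_eq_zero_iff' ?_]
    · have h2 : ∀ᵐ h ∂(law ρ (S.policy a₀) t), h ∈ S.reach t := by
        rw [ae_iff]; exact ih
      filter_upwards [h2] with h hh
      exact S.step_compl ρ a₀ hh
    · exact (Kernel.measurable_kernel_prodMk_left h1).aemeasurable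

theorem integrable_law (t : ℕ) (F : History d t → ℝ) :
    Integrable F (law ρ (S.policy a₀) t) := by
  have h1 : IntegrableOn F (S.reach t) (law ρ (S.policy a₀) t) :=
    IntegrableOn.of_finite (S.finite_reach t)
  have h2 : (law ρ (S.policy a₀) t).restrict (S.reach t) = law ρ (S.policy a₀) t :=
    Measure.restrict_eq_self_of_ae_mem (by rw [ae_iff]; exact S.law_compl ρ a₀ t)
  rwa [IntegrableOn, h2] at h1

theorem integral_step {t : ℕ} {h : History d t} (hh : h ∈ S.reach t) (F : Action d × Bool → ℝ) :
    ∫ y, F y ∂(step ρ (S.policy a₀) t h) = ∑ k, S.p t h k *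
      (born ρ (S.a t h k) * F (S.a t h k, true) +
        (1 - born ρ (S.a t h k)) * F (S.a t h k, false)) := by
  have hT : {y : Action d × Bool | ∃ k, y.1 = S.a t h k}.Finite := by
    refine ((Set.finite_univ (α := K × Bool)).image fun x => (S.a t h x.1, x.2)).subset ?_
    rintro ⟨P, b⟩ ⟨k, hk⟩
    exact ⟨(k, b), trivial, by simp only at hk ⊢; rw [hk]⟩
  have hae : ∀ᵐ y ∂(step ρ (S.policy a₀) t h), y ∈ {y : Action d × Bool | ∃ k, y.1 = S.a t h k} := by
    rw [ae_iff]
    refine measure_mono_null ?_ (S.step_compl ρ a₀ hh)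
    intro y hy hy2
    exact hy hy2.2
  have hint : Integrable F (step ρ (S.policy a₀) t h) := by
    have h1 : IntegrableOn F {y : Action d × Bool | ∃ k, y.1 = S.a t h k}
        (step ρ (S.policy a₀) t h) := IntegrableOn.of_finite hT
    rwa [IntegrableOn, Measure.restrict_eq_self_of_ae_mem hae] at h1
  have hinner : ∀ P : Action d, ∫ b, F (P, b) ∂(reward ρ P) =
      born ρ P * F (P, true) + (1 - born ρ P) * F (P, false) := by
    intro P
    rw [reward_apply, integral_add_measure
        ((Integrable.of_finite (μ := Measure.dirac true)).smul_measure ENNReal.ofReal_ne_top)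
        ((Integrable.of_finite (μ := Measure.dirac false)).smul_measure ENNReal.ofReal_ne_top),
      integral_smul_measure, integral_smul_measure, integral_dirac, integral_dirac,
      ENNReal.toReal_ofReal (born_nonneg ρ P),
      ENNReal.toReal_ofReal (by have := born_le_one ρ P; linarith)]
    simp
  rw [step, ProbabilityTheory.integral_compProd (by exact hint), S.policy_apply a₀ hh]
  simp only [Kernel.prodMkLeft_apply, hinner]
  rw [mix, integral_finsetSum_measure]
  · refine Finset.sum_congr rfl fun k _ => ?_
    rw [integral_smul_measure, integral_dirac, ENNReal.toReal_ofReal (S.p_nonneg t h k)]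
    simp
  · intro k _
    exact (integrable_dirac (by simp)).smul_measure ENNReal.ofReal_ne_top

theorem integral_law (t : ℕ) (F : History d t → ℝ) :
    ∫ h, F h ∂(law ρ (S.policy a₀) t) = S.ex ρ t F := by
  induction t with
  | zero =>
    show ∫ h, F h ∂(Measure.dirac ()) = F ()
    exact integral_dirac F ()
  | succ t ih =>
    have h1 := S.integrable_law ρ a₀ (t + 1) F
    show ∫ h, F h ∂((law ρ (S.policy a₀) t) ⊗ₘ (step ρ (S.policy a₀) t)) = _
    rw [Measure.integral_compProd h1]
    have h2 : ∀ᵐ h ∂(law ρ (S.policy a₀) t), h ∈ S.reach t := by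
      rw [ae_iff]; exact S.law_compl ρ a₀ t
    have h3 : ∫ h, (∫ y, F (h, y) ∂(step ρ (S.policy a₀) t h)) ∂(law ρ (S.policy a₀) t) =
        ∫ h, (∑ k, S.p t h k *
      (born ρ (S.a t h k) * F (h, (S.a t h k, true)) +
        (1 - born ρ (S.a t h k)) * F (h, (S.a t h k, false)))) ∂(law ρ (S.policy a₀) t) := by
      refine integral_congr_ae ?_
      filter_upwards [h2] with h hh
      exact S.integral_step ρ a₀ hh fun y => F (h, y)
    exact h3.trans (ih _)

end Strategy

end Pool.Agent.Lib.MP_e1539f_lc
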